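import Mathlib

set_option autoImplicit false

namespace Pool.Agent.Lib.MP_dd244f_an.OtherModes
open MeasureTheory Set Filter Topology

/-- an exponential family of integrals is entire and bounded on the unit strip -/
theorem entire_cc {Y : Type*} [TopologicalSpace Y] [MeasurableSpace Y] [OpensMeasurableSpace Y]
    {ν : Measure Y} [IsFiniteMeasureOnCompacts ν] {u : Y → ℝ} (hu : Continuous u)
    {Ψ : Y → ℂ} (hΨ : Continuous Ψ) (hc : HasCompactSupport Ψ) :
    Differentiable ℂ (fun ζ : ℂ => ∫ y, Complex.exp (ζ * u y) * Ψ y ∂ν) ∧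
    ∃ C, ∀ ζ : ℂ, 0 ≤ ζ.re → ζ.re ≤ 1 → ‖∫ y, Complex.exp (ζ * u y) * Ψ y ∂ν‖ ≤ C := by
  obtain ⟨C0, hC0⟩ := hc.isCompact.exists_bound_of_continuousOn hu.continuousOn
  set C := max C0 0 with hC
  have hCpos : 0 ≤ C := le_max_right _ _
  have hb : ∀ y, Ψ y ≠ 0 → |u y| ≤ C := fun y hy =>
    (hC0 y (subset_tsupport _ (Function.mem_support.2 hy))).trans (le_max_left _ _)
  have hint : Integrable Ψ ν := hΨ.integrable_of_hasCompactSupport hc
  have hcc : ∀ ζ : ℂ, Continuous fun y => Complex.exp (ζ * u y) * Ψ y := by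
    intro ζ; fun_prop
  have hcs : ∀ ζ : ℂ, HasCompactSupport fun y => Complex.exp (ζ * u y) * Ψ y := fun ζ =>
    hc.mul_left
  have hbd : ∀ (ζ : ℂ) (r : ℝ), |ζ.re| ≤ r → ∀ y, ‖Complex.exp (ζ * u y) * Ψ y‖ ≤
      Real.exp (r * C) * ‖Ψ y‖ := by
    intro ζ r hr y
    rw [norm_mul]
    by_cases hy : Ψ y = 0
    · rw [hy]; simp
    · refine mul_le_mul_of_nonneg_right ?_ (norm_nonneg _)
      rw [Complex.norm_exp, Real.exp_le_exp]
      have e : (ζ * (u y : ℂ)).re = ζ.re * u y := by simp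
      rw [e]
      calc ζ.re * u y ≤ |ζ.re * u y| := le_abs_self _
        _ = |ζ.re| * |u y| := abs_mul _ _
        _ ≤ r * C := mul_le_mul hr (hb y hy) (abs_nonneg _) ((abs_nonneg _).trans hr)
  constructor
  · intro ζ0
    have h := hasDerivAt_integral_of_dominated_loc_of_deriv_le (μ := ν)
      (F := fun ζ y => Complex.exp (ζ * u y) * Ψ y)
      (F' := fun ζ y => (u y : ℂ) * (Complex.exp (ζ * u y) * Ψ y)) (x₀ := ζ0)
      (bound := fun y => C * (Real.exp ((‖ζ0‖ + 1) * C) * ‖Ψ y‖)) (s := Metric.ball ζ0 1)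
      (Metric.ball_mem_nhds _ one_pos)
      (Filter.Eventually.of_forall fun ζ => (hcc ζ).aestronglyMeasurable)
      ((hcc ζ0).integrable_of_hasCompactSupport (hcs ζ0))
      (by
        have : Continuous fun y => (u y : ℂ) * (Complex.exp (ζ0 * u y) * Ψ y) := by fun_prop
        exact this.aestronglyMeasurable)
      (Filter.Eventually.of_forall fun y ζ hζ => by
        rw [norm_mul]
        by_cases hy : Ψ y = 0
        · rw [hy]; simp
        · refine mul_le_mul ?_ (hbd ζ _ ?_ y) (norm_nonneg _) hCpos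
          · rw [Complex.norm_real]; exact hb y hy
          · rw [Metric.mem_ball, dist_eq_norm] at hζ
            have h1 := Complex.abs_re_le_norm ζ
            have h2 : ‖ζ‖ ≤ ‖ζ0‖ + ‖ζ - ζ0‖ := by
              calc ‖ζ‖ = ‖ζ0 + (ζ - ζ0)‖ := by ring_nf
                _ ≤ _ := norm_add_le _ _
            linarith)
      ((hint.norm.const_mul _).const_mul _)
      (Filter.Eventually.of_forall fun y ζ _ => by
        have h1 : HasDerivAt (fun ζ : ℂ => ζ * u y) (u y : ℂ) ζ := by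
          simpa using (hasDerivAt_id ζ).mul_const (u y : ℂ)
        have h2 := (h1.cexp).mul_const (Ψ y)
        refine h2.congr_deriv ?_
        ring)
    exact h.2.differentiableAt
  · refine ⟨∫ y, Real.exp (1 * C) * ‖Ψ y‖ ∂ν, fun ζ h0 h1 => ?_⟩
    apply norm_integral_le_of_norm_le (hint.norm.const_mul _)
    filter_upwards with y
    apply hbd ζ 1
    rw [abs_of_nonneg h0]
    exact h1

section
variable {μ : Measure ℝ} [IsFiniteMeasureOnCompacts μ]

theorem pow_cc {f : ℝ → ℂ} (hf : Continuous f) (hs : HasCompactSupport f) {r : ℝ} (hr : 0 < r) :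
    Continuous (fun x => ‖f x‖ ^ r) ∧ HasCompactSupport (fun x => ‖f x‖ ^ r) := by
  constructor
  · exact hf.norm.rpow_const (fun x => Or.inr hr.le)
  · exact hs.comp_left (g := fun z : ℂ => ‖z‖ ^ r) (by simp [Real.zero_rpow hr.ne'])

theorem lim_int {f : ℝ → ℂ} (hf : Continuous f) (hs : HasCompactSupport f) {s : ℝ} (hs0 : 0 ≤ s)
    {r : ℕ} (hr : r ≠ 0) :
    Tendsto (fun k : ℕ => ∫ x, Real.exp (s * Real.log (‖f x‖ ^ 2 + (1 / ((k:ℝ) + 1)) ^ 2)) *
      ‖f x‖ ^ r ∂μ) atTop (𝓝 (∫ x, ‖f x‖ ^ (2 * s + r) ∂μ)) := by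
  have hpos : ∀ (k : ℕ) (x : ℝ), 0 < ‖f x‖ ^ 2 + (1 / ((k:ℝ) + 1)) ^ 2 := by
    intro k x
    have : 0 < (1 / ((k:ℝ) + 1)) ^ 2 := by positivity
    have := sq_nonneg (‖f x‖)
    linarith
  have hcont : ∀ ε : ℝ, 0 < ε → Continuous fun x => Real.exp (s * Real.log (‖f x‖ ^ 2 + ε)) *
      ‖f x‖ ^ r := by
    intro ε hε
    have h1 : Continuous fun x => Real.log (‖f x‖ ^ 2 + ε) := by
      apply Continuous.log (by fun_prop)
      intro x
      have := sq_nonneg (‖f x‖)
      linarith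
    fun_prop
  have hsupp : ∀ ε : ℝ, HasCompactSupport fun x => Real.exp (s * Real.log (‖f x‖ ^ 2 + ε)) *
      ‖f x‖ ^ r := by
    intro ε
    apply HasCompactSupport.mul_left
    exact hs.comp_left (g := fun z : ℂ => ‖z‖ ^ r) (by simp [hr])
  apply tendsto_integral_of_dominated_convergence
    (fun x => Real.exp (s * Real.log (‖f x‖ ^ 2 + 1)) * ‖f x‖ ^ r)
  · intro k
    exact (hcont _ (by positivity)).aestronglyMeasurable
  · exact (hcont 1 one_pos).integrable_of_hasCompactSupport (hsupp 1)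
  · intro k
    filter_upwards with x
    rw [Real.norm_eq_abs, abs_mul, abs_of_pos (Real.exp_pos _), abs_of_nonneg (by positivity)]
    refine mul_le_mul_of_nonneg_right ?_ (by positivity)
    rw [Real.exp_le_exp]
    refine mul_le_mul_of_nonneg_left ?_ hs0
    apply Real.log_le_log (hpos k x)
    have : (1 / ((k:ℝ) + 1)) ^ 2 ≤ 1 := by
      rw [sq_le_one_iff_abs_le_one, abs_of_pos (by positivity), div_le_one (by positivity)]
      have : (0:ℝ) ≤ k := Nat.cast_nonneg k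
      linarith
    linarith
  · filter_upwards with x
    by_cases hx : f x = 0
    · have e : ‖f x‖ ^ (2 * s + r) = 0 := by
        rw [hx, norm_zero, Real.zero_rpow]
        have : (0:ℝ) < r := by exact_mod_cast Nat.pos_of_ne_zero hr
        linarith
      rw [e, hx]
      simp [hr]
    · have hn : 0 < ‖f x‖ := norm_pos_iff.2 hx
      have e : ‖f x‖ ^ (2 * s + r) = Real.exp (s * Real.log (‖f x‖ ^ 2 + 0 ^ 2)) * ‖f x‖ ^ r := by
        rw [Real.rpow_add hn, Real.rpow_natCast, Real.rpow_mul hn.le, mul_comm s,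
          show ‖f x‖ ^ 2 + 0 ^ 2 = ‖f x‖ ^ 2 by ring, ← Real.rpow_def_of_pos (by positivity)]
        norm_cast
      rw [e]
      have h1 : Tendsto (fun k : ℕ => 1 / ((k:ℝ) + 1)) atTop (𝓝 0) :=
        tendsto_one_div_add_atTop_nhds_zero_nat
      have h2 : ContinuousAt (fun t : ℝ => Real.exp (s * Real.log (‖f x‖ ^ 2 + t ^ 2)) *
          ‖f x‖ ^ r) 0 := by
        have h3 : ContinuousAt (fun t : ℝ => Real.log (‖f x‖ ^ 2 + t ^ 2)) 0 := by
          apply ContinuousAt.log (by fun_prop)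
          positivity
        fun_prop
      exact h2.tendsto.comp h1

/-- Riesz-Thorin between `(∞, 1)` and `(2, 2)` for bilinear forms with analytic families -/
theorem RT_core (𝓑 : (ℝ → ℂ) → (ℝ → ℂ) → ℂ) {M : ℝ} (hM : 0 ≤ M)
    (han : ∀ φ γ : ℝ → ℂ, Continuous φ → HasCompactSupport φ → Continuous γ →
      HasCompactSupport γ → ∀ u v : ℝ → ℝ, Continuous u → Continuous v →
      Differentiable ℂ (fun ζ : ℂ => 𝓑 (fun x => Complex.exp (ζ * u x) * φ x)
        (fun x => Complex.exp (ζ * v x) * γ x)) ∧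
      ∃ C, ∀ ζ : ℂ, 0 ≤ ζ.re → ζ.re ≤ 1 → ‖𝓑 (fun x => Complex.exp (ζ * u x) * φ x)
        (fun x => Complex.exp (ζ * v x) * γ x)‖ ≤ C)
    (h1 : ∀ φ γ : ℝ → ℂ, Continuous φ → HasCompactSupport φ → Continuous γ →
      HasCompactSupport γ → (∀ x, ‖φ x‖ ≤ 1) → ‖𝓑 φ γ‖ ≤ M * ∫ x, ‖γ x‖ ∂μ)
    (h2 : ∀ φ γ : ℝ → ℂ, Continuous φ → HasCompactSupport φ → Continuous γ →
      HasCompactSupport γ → ‖𝓑 φ γ‖ ≤ Real.sqrt (∫ x, ‖φ x‖ ^ 2 ∂μ) *
        Real.sqrt (∫ x, ‖γ x‖ ^ 2 ∂μ))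
    {p q : ℝ} (hp : 2 ≤ p) (hpq : 1 / p + 1 / q = 1) (hq : 0 < q)
    {φ γ : ℝ → ℂ} (hφ : Continuous φ) (hφs : HasCompactSupport φ) (hγ : Continuous γ)
    (hγs : HasCompactSupport γ) :
    ‖𝓑 φ γ‖ ≤ M ^ (1 - 2 / p) * (∫ x, ‖φ x‖ ^ p ∂μ) ^ (1 / p) *
      (∫ x, ‖γ x‖ ^ q ∂μ) ^ (1 / q) := by
  have hp0 : 0 < p := by linarith
  have hq1 : 1 < q := by
    by_contra hcon
    rw [not_lt] at hcon
    have h3 : 1 ≤ 1 / q := by rw [le_div_iff₀ hq]; linarith
    have h4 : 0 < 1 / p := by positivity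
    linarith
  have hq2 : q ≤ 2 := by
    have h3 : 1 / p ≤ 1 / 2 := one_div_le_one_div_of_le (by norm_num) hp
    have h4 : 1 / 2 ≤ 1 / q := by linarith
    rw [div_le_div_iff₀ (by norm_num) hq] at h4
    linarith
  have hpq' : q / p = q - 1 := by
    have h3 : q * (1 / p + 1 / q) = q := by rw [hpq, mul_one]
    rw [mul_add, mul_one_div, mul_one_div, div_self hq.ne'] at h3
    linarith
  -- the regularised family
  have key : ∀ ε : ℝ, 0 < ε → ‖𝓑 φ γ‖ ≤
      (M * ∫ x, Real.exp ((q - 1) / 2 * Real.log (‖γ x‖ ^ 2 + ε ^ 2)) * ‖γ x‖ ^ 1 ∂μ) ^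
        (1 - 2 / p) *
      (Real.sqrt (∫ x, Real.exp ((p / 2 - 1) * Real.log (‖φ x‖ ^ 2 + ε ^ 2)) * ‖φ x‖ ^ 2 ∂μ) *
        Real.sqrt (∫ x, ‖γ x‖ ^ q ∂μ)) ^ (2 / p) := by
    intro ε hε
    have hε2 : 0 < ε ^ 2 := by positivity
    set Lφ : ℝ → ℝ := fun x => Real.log (‖φ x‖ ^ 2 + ε ^ 2) with hLφ
    set Lγ : ℝ → ℝ := fun x => Real.log (‖γ x‖ ^ 2 + ε ^ 2) with hLγ
    have cφ : Continuous Lφ := by
      apply Continuous.log (by fun_prop)
      intro x
      have := sq_nonneg (‖φ x‖)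
      linarith
    have cγ : Continuous Lγ := by
      apply Continuous.log (by fun_prop)
      intro x
      have := sq_nonneg (‖γ x‖)
      linarith
    set φ0 : ℝ → ℂ := fun x => (Real.exp (-(Lφ x) / 2) : ℂ) * φ x with hφ0
    set γ0 : ℝ → ℂ := fun x => (Real.exp ((q - 1) / 2 * Lγ x) : ℂ) * γ x with hγ0
    set u : ℝ → ℝ := fun x => p / 4 * Lφ x with hu
    set v : ℝ → ℝ := fun x => -(q / 4) * Lγ x with hv
    have cφ0 : Continuous φ0 := by rw [hφ0]; fun_prop
    have cγ0 : Continuous γ0 := by rw [hγ0]; fun_prop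
    have sφ0 : HasCompactSupport φ0 := hφs.mul_left
    have sγ0 : HasCompactSupport γ0 := hγs.mul_left
    have cu : Continuous u := by rw [hu]; fun_prop
    have cv : Continuous v := by rw [hv]; fun_prop
    obtain ⟨hd, C, hC⟩ := han φ0 γ0 cφ0 sφ0 cγ0 sγ0 u v cu cv
    set F : ℂ → ℂ := fun ζ : ℂ => 𝓑 (fun x => Complex.exp (ζ * u x) * φ0 x)
        (fun x => Complex.exp (ζ * v x) * γ0 x) with hF
    have nφ : ∀ (ζ : ℂ) (x : ℝ), ‖Complex.exp (ζ * u x) * φ0 x‖ =
        Real.exp ((ζ.re * p / 4 - 1 / 2) * Lφ x) * ‖φ x‖ := by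
      intro ζ x
      rw [hφ0, norm_mul, norm_mul, Complex.norm_exp, Complex.norm_real, Real.norm_eq_abs,
        abs_of_pos (Real.exp_pos _), ← mul_assoc, ← Real.exp_add]
      congr 2
      have e : (ζ * (u x : ℂ)).re = ζ.re * u x := by simp
      rw [e, hu]
      ring
    have nγ : ∀ (ζ : ℂ) (x : ℝ), ‖Complex.exp (ζ * v x) * γ0 x‖ =
        Real.exp (((q - 1) / 2 - ζ.re * q / 4) * Lγ x) * ‖γ x‖ := by
      intro ζ x
      rw [hγ0, norm_mul, norm_mul, Complex.norm_exp, Complex.norm_real, Real.norm_eq_abs,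
        abs_of_pos (Real.exp_pos _), ← mul_assoc, ← Real.exp_add]
      congr 2
      have e : (ζ * (v x : ℂ)).re = ζ.re * v x := by simp
      rw [e, hv]
      ring
    have cζφ : ∀ ζ : ℂ, Continuous fun x => Complex.exp (ζ * u x) * φ0 x := by
      intro ζ; fun_prop
    have cζγ : ∀ ζ : ℂ, Continuous fun x => Complex.exp (ζ * v x) * γ0 x := by
      intro ζ; fun_prop
    have sζφ : ∀ ζ : ℂ, HasCompactSupport fun x => Complex.exp (ζ * u x) * φ0 x := fun ζ =>
      sφ0.mul_left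
    have sζγ : ∀ ζ : ℂ, HasCompactSupport fun x => Complex.exp (ζ * v x) * γ0 x := fun ζ =>
      sγ0.mul_left
    have b0 : ∀ z ∈ Complex.re ⁻¹' {0}, ‖F z‖ ≤
        M * ∫ x, Real.exp ((q - 1) / 2 * Real.log (‖γ x‖ ^ 2 + ε ^ 2)) * ‖γ x‖ ^ 1 ∂μ := by
      intro z hz
      have hz' : z.re = 0 := hz
      refine (h1 _ _ (cζφ z) (sζφ z) (cζγ z) (sζγ z) ?_).trans (le_of_eq ?_)
      · intro x
        rw [nφ, hz']
        have h3 : ‖φ x‖ ≤ Real.exp (1 / 2 * Lφ x) := by
          rw [mul_comm, Real.exp_mul, hLφ]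
          simp only
          rw [Real.exp_log (by have := sq_nonneg (‖φ x‖); linarith), ← Real.sqrt_eq_rpow]
          apply Real.le_sqrt_of_sq_le
          linarith
        have h4 : Real.exp ((0 * p / 4 - 1 / 2) * Lφ x) * Real.exp (1 / 2 * Lφ x) = 1 := by
          rw [← Real.exp_add]
          ring_nf
          exact Real.exp_zero
        calc _ ≤ Real.exp ((0 * p / 4 - 1 / 2) * Lφ x) * Real.exp (1 / 2 * Lφ x) :=
              mul_le_mul_of_nonneg_left h3 (Real.exp_pos _).le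
          _ = 1 := h4
      · congr 1
        apply integral_congr_ae
        filter_upwards with x
        rw [nγ, hz', pow_one]
        congr 3
        ring
    have b1 : ∀ z ∈ Complex.re ⁻¹' {1}, ‖F z‖ ≤
        Real.sqrt (∫ x, Real.exp ((p / 2 - 1) * Real.log (‖φ x‖ ^ 2 + ε ^ 2)) * ‖φ x‖ ^ 2 ∂μ) *
        Real.sqrt (∫ x, ‖γ x‖ ^ q ∂μ) := by
      intro z hz
      have hz' : z.re = 1 := hz
      refine (h2 _ _ (cζφ z) (sζφ z) (cζγ z) (sζγ z)).trans ?_
      refine mul_le_mul (le_of_eq ?_) (Real.sqrt_le_sqrt ?_) (Real.sqrt_nonneg _)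
        (Real.sqrt_nonneg _)
      · congr 1
        apply integral_congr_ae
        filter_upwards with x
        rw [nφ, hz', mul_pow, ← Real.exp_nat_mul]
        congr 2
        push_cast
        ring
      · have i1 : Integrable (fun x => ‖Complex.exp (z * v x) * γ0 x‖ ^ 2) μ := by
          have hc1 : Continuous fun x => ‖Complex.exp (z * v x) * γ0 x‖ ^ 2 := by fun_prop
          apply hc1.integrable_of_hasCompactSupport
          exact (sζγ z).comp_left (g := fun z : ℂ => ‖z‖ ^ 2) (by simp)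
        have i2 : Integrable (fun x => ‖γ x‖ ^ q) μ :=
          (pow_cc hγ hγs hq).1.integrable_of_hasCompactSupport (pow_cc hγ hγs hq).2
        apply integral_mono i1 i2
        intro x
        simp only
        rw [nγ, hz', mul_pow, ← Real.exp_nat_mul]
        by_cases hx : γ x = 0
        · rw [hx]
          simp [Real.zero_rpow hq.ne']
        · have hn : 0 < ‖γ x‖ := norm_pos_iff.2 hx
          have h3 : Real.log (‖γ x‖ ^ 2) ≤ Lγ x := by
            rw [hLγ]
            apply Real.log_le_log (by positivity)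
            linarith
          have h4 : ((2:ℕ):ℝ) * (((q - 1) / 2 - 1 * q / 4) * Lγ x) ≤
              (q / 2 - 1) * Real.log (‖γ x‖ ^ 2) := by
            have e : ((2:ℕ):ℝ) * (((q - 1) / 2 - 1 * q / 4) * Lγ x) = (q / 2 - 1) * Lγ x := by
              push_cast; ring
            rw [e]
            exact mul_le_mul_of_nonpos_left h3 (by linarith)
          calc Real.exp (((2:ℕ):ℝ) * (((q - 1) / 2 - 1 * q / 4) * Lγ x)) * ‖γ x‖ ^ 2
              ≤ Real.exp ((q / 2 - 1) * Real.log (‖γ x‖ ^ 2)) * ‖γ x‖ ^ 2 := by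
                refine mul_le_mul_of_nonneg_right ?_ (by positivity)
                rw [Real.exp_le_exp]
                exact h4
            _ = ‖γ x‖ ^ q := by
                rw [mul_comm (q / 2 - 1), ← Real.rpow_def_of_pos (by positivity),
                  ← Real.rpow_natCast, ← Real.rpow_mul hn.le, ← Real.rpow_add hn]
                congr 1
                push_cast
                ring
    have hθ : ((2 / p : ℝ) : ℂ) ∈ Complex.HadamardThreeLines.verticalClosedStrip 0 1 := by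
      constructor
      · simp only [Complex.ofReal_re]; positivity
      · simp only [Complex.ofReal_re]
        rw [div_le_one hp0]; exact hp
    have h3l := Complex.HadamardThreeLines.norm_le_interp_of_mem_verticalClosedStrip₀₁' F hθ
      (hd.diffContOnCl) (by
        refine ⟨C, ?_⟩
        rintro y ⟨ζ, hζ, rfl⟩
        exact hC ζ hζ.1 hζ.2) b0 b1
    rw [Complex.ofReal_re] at h3l
    have hFθ : F ((2 / p : ℝ) : ℂ) = 𝓑 φ γ := by
      rw [hF]
      simp only
      congr 1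
      · ext x
        rw [hφ0, hu]
        simp only
        rw [← mul_assoc, Complex.ofReal_exp, ← Complex.exp_add]
        have e : ((2 / p : ℝ) : ℂ) * ((p / 4 * Lφ x : ℝ) : ℂ) + ((-(Lφ x) / 2 : ℝ) : ℂ) = 0 := by
          rw [← Complex.ofReal_mul, ← Complex.ofReal_add]
          have : 2 / p * (p / 4 * Lφ x) + -(Lφ x) / 2 = 0 := by field_simp; ring
          rw [this]; simp
        rw [e, Complex.exp_zero, one_mul]
      · ext x
        rw [hγ0, hv]
        simp only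
        rw [← mul_assoc, Complex.ofReal_exp, ← Complex.exp_add]
        have e : ((2 / p : ℝ) : ℂ) * ((-(q / 4) * Lγ x : ℝ) : ℂ) +
            (((q - 1) / 2 * Lγ x : ℝ) : ℂ) = 0 := by
          rw [← Complex.ofReal_mul, ← Complex.ofReal_add]
          have : 2 / p * (-(q / 4) * Lγ x) + (q - 1) / 2 * Lγ x = 0 := by
            rw [← hpq']
            field_simp
            ring
          rw [this]; simp
        rw [e, Complex.exp_zero, one_mul]
    rw [hFθ] at h3l
    exact h3l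
  -- the limit
  have l1 := lim_int (μ := μ) hγ hγs (s := (q - 1) / 2) (by linarith) (r := 1) one_ne_zero
  have l2 := lim_int (μ := μ) hφ hφs (s := p / 2 - 1) (by linarith) (r := 2) two_ne_zero
  rw [show 2 * ((q - 1) / 2) + ((1:ℕ):ℝ) = q by push_cast; ring] at l1
  rw [show 2 * (p / 2 - 1) + ((2:ℕ):ℝ) = p by push_cast; ring] at l2
  set I := ∫ x, ‖γ x‖ ^ q ∂μ with hI
  set J := ∫ x, ‖φ x‖ ^ p ∂μ with hJ
  have hI0 : 0 ≤ I := integral_nonneg fun x => Real.rpow_nonneg (norm_nonneg _) _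
  have hJ0 : 0 ≤ J := integral_nonneg fun x => Real.rpow_nonneg (norm_nonneg _) _
  have e1 : 0 ≤ 1 - 2 / p := by
    have : 2 / p ≤ 1 := by rw [div_le_one hp0]; exact hp
    linarith
  have e2 : 0 ≤ 2 / p := by positivity
  have hlim : Tendsto (fun k : ℕ =>
      (M * ∫ x, Real.exp ((q - 1) / 2 * Real.log (‖γ x‖ ^ 2 + (1 / ((k:ℝ) + 1)) ^ 2)) *
        ‖γ x‖ ^ 1 ∂μ) ^ (1 - 2 / p) *
      (Real.sqrt (∫ x, Real.exp ((p / 2 - 1) * Real.log (‖φ x‖ ^ 2 + (1 / ((k:ℝ) + 1)) ^ 2)) *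
        ‖φ x‖ ^ 2 ∂μ) * Real.sqrt I) ^ (2 / p)) atTop
      (𝓝 ((M * I) ^ (1 - 2 / p) * (Real.sqrt J * Real.sqrt I) ^ (2 / p))) := by
    apply Tendsto.mul
    · exact (l1.const_mul M).rpow_const (Or.inr e1)
    · apply Tendsto.rpow_const _ (Or.inr e2)
      exact ((Real.continuous_sqrt.tendsto _).comp l2).mul_const _
  have hfin : ‖𝓑 φ γ‖ ≤ (M * I) ^ (1 - 2 / p) * (Real.sqrt J * Real.sqrt I) ^ (2 / p) :=
    ge_of_tendsto' hlim (fun k => key _ (by positivity))
  refine hfin.trans (le_of_eq ?_)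
  rw [Real.mul_rpow hM hI0, Real.mul_rpow (Real.sqrt_nonneg _) (Real.sqrt_nonneg _),
    Real.sqrt_eq_rpow, Real.sqrt_eq_rpow, ← Real.rpow_mul hJ0, ← Real.rpow_mul hI0]
  have e3 : 1 / 2 * (2 / p) = 1 / p := by field_simp
  rw [e3]
  have e4 : I ^ (1 - 2 / p) * I ^ (1 / p) = I ^ (1 / q) := by
    rcases hI0.eq_or_lt with h | h
    · rw [← h, Real.zero_rpow (show 1 / p ≠ 0 by positivity),
        Real.zero_rpow (show 1 / q ≠ 0 by positivity), mul_zero]
    · rw [← Real.rpow_add h]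
      congr 1
      have : 1 / q = 1 - 1 / p := by linarith
      rw [this]
      ring
  calc M ^ (1 - 2 / p) * I ^ (1 - 2 / p) * (J ^ (1 / p) * I ^ (1 / p))
      = M ^ (1 - 2 / p) * J ^ (1 / p) * (I ^ (1 - 2 / p) * I ^ (1 / p)) := by ring
    _ = _ := by rw [e4]

end

end Pool.Agent.Lib.MP_dd244f_an.OtherModes
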