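import Pool.Agent.Lib.MP_dd244f_an.OtherModes.Line
import Pool.Agent.Lib.MP_dd244f_an.Reduce

set_option autoImplicit false

namespace Pool.Agent.Lib.MP_dd244f_an.OtherModes
open MeasureTheory Set Filter Topology SchwartzMap LineDeriv FourierTransform
open scoped SchwartzMap ContDiff

theorem dd_add (V W : 𝓢(ℝ, ℂ)) : dd (V + W) = dd V + dd W := by
  unfold dd; rw [map_add]

theorem dd_smul (c : ℂ) (V : 𝓢(ℝ, ℂ)) : dd (c • V) = c • dd V := by
  unfold dd; rw [map_smul]

theorem dd_mulT (W : 𝓢(ℝ, ℂ)) : dd (mulT W) = W + mulT (dd W) := by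
  ext t
  rw [dd_apply, add_apply, mulT_apply]
  have e : (mulT W : ℝ → ℂ) = fun t : ℝ => (t : ℂ) * W t := by ext t; exact mulT_apply W t
  rw [e]
  have h1 : HasDerivAt (fun t : ℝ => (t : ℂ)) 1 t := by
    have := (hasDerivAt_id t).ofReal_comp
    simpa using this
  have h2 := h1.mul (hasDerivAt_dd W t)
  have h3 := h2.deriv
  rw [one_mul] at h3
  exact h3

/-- profile of `∂^N (z^{l+N} V(|z|^2))` -/
noncomputable def PPr : ℕ → ℕ → 𝓢(ℝ, ℂ) → 𝓢(ℝ, ℂ)
  | _, 0, V => V
  | l, N + 1, V => ((l : ℂ) + 1) • PPr (l + 1) N V + mulT (dd (PPr (l + 1) N V))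

theorem dz_iter_PPr (N : ℕ) : ∀ (l : ℕ) (V : 𝓢(ℝ, ℂ)),
    dz^[N] (modeMap (l + N) V) = modeMap l (PPr l N V) := by
  induction N with
  | zero => intro l V; rfl
  | succ N ih =>
    intro l V
    rw [Function.iterate_succ_apply', show l + (N + 1) = (l + 1) + N by ring, ih, dz_modeMap]
    rfl

theorem dd_PPr (N : ℕ) : ∀ (l : ℕ) (V : 𝓢(ℝ, ℂ)), dd (PPr l N V) = PPr (l + 1) N (dd V) := by
  induction N with
  | zero => intro l V; rfl
  | succ N ih =>
    intro l V
    rw [PPr, dd_add, dd_smul, dd_mulT, ih, PPr]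
    push_cast
    module

theorem dd_iter_PPr (j N : ℕ) : ∀ (l : ℕ) (V : 𝓢(ℝ, ℂ)),
    dd^[j] (PPr l N V) = PPr (l + j) N (dd^[j] V) := by
  induction j with
  | zero => intro l V; rfl
  | succ j ih =>
    intro l V
    rw [Function.iterate_succ_apply, dd_PPr, ih, ← Function.iterate_succ_apply]
    congr 1
    ring

theorem dd_vanish {V : 𝓢(ℝ, ℂ)} {b : ℝ} (h : ∀ t, b < t → V t = 0) : ∀ t, b < t → dd V t = 0 := by
  intro t ht
  rw [dd_apply]
  have : (V : ℝ → ℂ) =ᶠ[𝓝 t] fun _ => 0 := by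
    filter_upwards [lt_mem_nhds ht] with s hs
    exact h s hs
  rw [this.deriv_eq]
  simp

theorem PPr_vanish (N : ℕ) : ∀ (l : ℕ) {V : 𝓢(ℝ, ℂ)} {b : ℝ} (_ : ∀ t, b < t → V t = 0),
    ∀ t, b < t → PPr l N V t = 0 := by
  induction N with
  | zero => intro l V b h; exact h
  | succ N ih =>
    intro l V b h t ht
    rw [PPr, add_apply, smul_apply, mulT_apply, ih _ h t ht, dd_vanish (ih _ h) t ht]
    simp

theorem hasDerivAt_comp_exp (W : 𝓢(ℝ, ℂ)) (x : ℝ) :
    HasDerivAt (fun x => W (Real.exp (2 * x)))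
      ((2 * Real.exp (2 * x) : ℝ) * dd W (Real.exp (2 * x))) x := by
  have h1 : HasDerivAt (fun x : ℝ => Real.exp (2 * x)) (2 * Real.exp (2 * x)) x := by
    have := ((hasDerivAt_id x).const_mul 2).exp
    simp only [id_eq, mul_one] at this
    exact this.congr_deriv (by ring)
  have h2 := HasDerivAt.scomp x (hasDerivAt_dd W (Real.exp (2 * x))) h1
  refine HasDerivAt.congr_deriv h2 ?_
  rw [Complex.real_smul]

theorem hasDerivAt_exp_mul (l x : ℝ) :
    HasDerivAt (fun x : ℝ => (Real.exp (l * x) : ℂ)) ((l * Real.exp (l * x) : ℝ) : ℂ) x := by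
  have h3 : HasDerivAt (fun x : ℝ => Real.exp (l * x)) (l * Real.exp (l * x)) x := by
    have := ((hasDerivAt_id x).const_mul l).exp
    simp only [id_eq, mul_one] at this
    exact this.congr_deriv (by ring)
  exact h3.ofReal_comp

/-- the kernel formula for the profile -/
theorem PPr_kernel (N : ℕ) : ∀ (l : ℕ) (V : 𝓢(ℝ, ℂ)) {b : ℝ} (_ : ∀ t, b < t → V t = 0) (x : ℝ),
    (Real.exp (l * x) : ℂ) * PPr l N V (Real.exp (2 * x)) =
      Aop (KK l N) (fun x => (Real.exp ((l + 2 * N : ℕ) * x) : ℂ) * (dd^[N] V) (Real.exp (2 * x))) x := by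
  induction N with
  | zero => intro l V b h x; rw [Aop_zero]; rfl
  | succ N ih =>
    intro l V b h x
    set φ : ℝ → ℂ := fun x => (Real.exp ((l + 2 * (N + 1) : ℕ) * x) : ℂ) *
      (dd^[N + 1] V) (Real.exp (2 * x)) with hφ
    have hφc : Continuous φ := by
      rw [hφ]
      have := (dd^[N + 1] V).continuous
      fun_prop
    have hexp : ∀ x : ℝ, b / 2 ≤ x → b < Real.exp (2 * x) := by
      intro x hx
      have := Real.add_one_le_exp (2 * x)
      linarith
    have hvan : ∀ j : ℕ, ∀ t, b < t → (dd^[j] V) t = 0 := by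
      intro j
      induction j with
      | zero => exact h
      | succ j ihj => rw [Function.iterate_succ_apply']; exact dd_vanish ihj
    have hφb : ∀ x, b / 2 ≤ x → φ x = 0 := by
      intro x hx
      rw [hφ]
      simp only
      rw [hvan _ _ (hexp x hx), mul_zero]
    rw [Aop_succ (l : ℝ) N hφc hφb]
    set Q := PPr (l + 1) N V with hQ
    have hQv : ∀ t, b < t → Q t = 0 := PPr_vanish N _ h
    -- the inner function
    have hin : Aop (KK ((l:ℝ) + 2) N) φ = fun x => (Real.exp ((l + 2 : ℝ) * x) : ℂ) *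
        dd Q (Real.exp (2 * x)) := by
      ext x
      have h1 := ih (l + 2) (dd V) (dd_vanish h) x
      rw [← Function.iterate_succ_apply, ← dd_PPr N (l + 1) V] at h1
      rw [show l + 2 + 2 * N = l + 2 * (N + 1) by ring] at h1
      push_cast at h1 ⊢
      rw [h1, hφ]
      push_cast
      rfl
    rw [hin]
    set φ1 : ℝ → ℂ := fun x => (Real.exp ((l + 2 : ℝ) * x) : ℂ) * dd Q (Real.exp (2 * x)) with hφ1
    have hφ1c : Continuous φ1 := by
      rw [hφ1]
      have := (dd Q).continuous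
      fun_prop
    have hφ1b : ∀ x, b / 2 ≤ x → φ1 x = 0 := by
      intro x hx
      rw [hφ1]
      simp only
      rw [dd_vanish hQv _ (hexp x hx), mul_zero]
    -- the resolvent
    have hres := ode_unique (a := l) (φ := φ1)
      (ψ := fun x => (-(1/2) : ℂ) * ((Real.exp ((l:ℝ) * x) : ℂ) * Q (Real.exp (2 * x)))) hφ1c hφ1b
      (by
        intro x
        have h1 := ((hasDerivAt_exp_mul (l:ℝ) x).mul (hasDerivAt_comp_exp Q x)).const_mul
          (-(1/2) : ℂ)
        refine HasDerivAt.congr_deriv h1 ?_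
        rw [hφ1]
        simp only
        rw [show ((l:ℝ) + 2) * x = l * x + 2 * x by ring, Real.exp_add]
        push_cast
        ring)
      (by
        intro x hx
        change (-(1/2) : ℂ) * ((Real.exp ((l:ℝ) * x) : ℂ) * Q (Real.exp (2 * x))) = 0
        rw [hQv _ (hexp x hx)]
        ring) x
    unfold Sop
    rw [← hres, hφ1, PPr, add_apply, smul_apply, mulT_apply, ← hQ]
    simp only [smul_eq_mul]
    rw [show ((l:ℝ) + 2) * x = l * x + 2 * x by ring, Real.exp_add]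
    push_cast
    ring

/-! ### Antiholomorphic modes -/

theorem tg_conj_pow (k : ℕ) : (fun z : ℂ => (starRingEnd ℂ z) ^ k).HasTemperateGrowth := by
  induction k with
  | zero =>
    have e : (fun z : ℂ => (starRingEnd ℂ z) ^ 0) = (fun _ : ℂ => (1 : ℂ)) := by ext z; simp
    rw [e]
    exact Function.HasTemperateGrowth.const (1 : ℂ)
  | succ k ih =>
    have h1 : (fun z : ℂ => starRingEnd ℂ z).HasTemperateGrowth :=
      (Complex.conjCLE : ℂ →L[ℝ] ℂ).hasTemperateGrowth
    have e : (fun z : ℂ => (starRingEnd ℂ z) ^ (k + 1)) =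
        (fun z : ℂ => (starRingEnd ℂ z) ^ k) * (fun z : ℂ => starRingEnd ℂ z) := by
      ext z; simp [pow_succ]
    rw [e]
    exact ih.mul h1

/-- The Schwartz function `z ↦ conj z ^ k * V (|z|^2)`. -/
noncomputable def modeMapC (k : ℕ) (V : 𝓢(ℝ, ℂ)) : 𝓢(ℂ, ℂ) :=
  smulLeftCLM ℂ (fun z : ℂ => (starRingEnd ℂ z) ^ k) (compCLM ℂ tg_normSq upper_normSq V)

theorem modeMapC_apply (k : ℕ) (V : 𝓢(ℝ, ℂ)) (z : ℂ) :
    modeMapC k V z = (starRingEnd ℂ z) ^ k * V (Complex.normSq z) := by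
  unfold modeMapC
  rw [smulLeftCLM_apply_apply (tg_conj_pow k)]
  simp

theorem modeMapC_zero (V : 𝓢(ℝ, ℂ)) : modeMapC 0 V = modeMap 0 V := by
  ext z; rw [modeMapC_apply, modeMap_apply]; simp

theorem modeMapC_lineDeriv (k : ℕ) (V : 𝓢(ℝ, ℂ)) (m z : ℂ) :
    ∂_{m} (modeMapC k V) z = k * (starRingEnd ℂ z) ^ (k - 1) * starRingEnd ℂ m *
        V (Complex.normSq z)
      + (starRingEnd ℂ z) ^ k * ((2 * (z.re * m.re + z.im * m.im) : ℝ) *
        dd V (Complex.normSq z)) := by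
  rw [lineDerivOp_apply, lineDeriv]
  have e : (fun s : ℝ => modeMapC k V (z + s • m)) =
      (fun s : ℝ => (starRingEnd ℂ z + s • starRingEnd ℂ m) ^ k) *
        (fun s : ℝ => V (Complex.normSq (z + s • m))) := by
    ext s
    rw [modeMapC_apply]
    simp
  rw [e]
  have h1 : HasDerivAt (fun s : ℝ => z + s • m) m 0 := by
    have := ((hasDerivAt_id (0 : ℝ)).smul_const m).const_add z
    simpa using this
  have h1' : HasDerivAt (fun s : ℝ => starRingEnd ℂ z + s • starRingEnd ℂ m)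
      (starRingEnd ℂ m) 0 := by
    have := ((hasDerivAt_id (0 : ℝ)).smul_const (starRingEnd ℂ m)).const_add (starRingEnd ℂ z)
    simpa using this
  have h2 : HasDerivAt (fun s : ℝ => (starRingEnd ℂ z + s • starRingEnd ℂ m) ^ k)
      (k * (starRingEnd ℂ z) ^ (k - 1) * starRingEnd ℂ m) 0 := by
    have := h1'.fun_pow k
    simpa using this
  have h3 := hasDerivAt_normSq' h1
  have h4 : HasDerivAt (fun s : ℝ => V (Complex.normSq (z + s • m)))
      ((2 * (z.re * m.re + z.im * m.im) : ℝ) • dd V (Complex.normSq z)) 0 := by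
    have h5 := hasDerivAt_dd V (Complex.normSq (z + (0:ℝ) • m))
    have h7 := HasDerivAt.scomp (0 : ℝ) h5 h3
    have e0 : z + (0:ℝ) • m = z := by simp
    rw [e0] at h7
    exact h7
  have h6 := h2.mul h4
  rw [h6.deriv]
  simp

theorem dz_modeMapC (k : ℕ) (V : 𝓢(ℝ, ℂ)) : dz (modeMapC k V) = modeMapC (k + 1) (dd V) := by
  ext z
  unfold dz
  simp only [smul_apply, add_apply, smul_eq_mul]
  rw [modeMapC_lineDeriv, modeMapC_lineDeriv, modeMapC_apply]
  simp only [Complex.one_re, Complex.one_im, Complex.I_re, Complex.I_im, map_one, Complex.conj_I]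
  have hzc : (z.re : ℂ) - z.im * Complex.I = starRingEnd ℂ z := by
    apply Complex.ext <;> simp
  push_cast
  linear_combination ((starRingEnd ℂ z) ^ k * dd V (Complex.normSq z)) * hzc +
    (1 / 2 * k * (starRingEnd ℂ z) ^ (k - 1) * V (Complex.normSq z)) * Complex.I_sq

theorem dz_iter_modeMapC (n k : ℕ) (V : 𝓢(ℝ, ℂ)) :
    dz^[n] (modeMapC k V) = modeMapC (k + n) (dd^[n] V) := by
  induction n generalizing k V with
  | zero => simp
  | succ n ih =>
    rw [Function.iterate_succ_apply, dz_modeMapC, ih, ← Function.iterate_succ_apply]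
    congr 1
    ring

/-! ### The kernel formula for `T^n` -/

theorem exp_log_norm {z : ℂ} (hz : z ≠ 0) : Real.exp (2 * Real.log ‖z‖) = Complex.normSq z := by
  rw [Complex.normSq_eq_norm_sq, mul_comm, Real.exp_mul, Real.exp_log (norm_pos_iff.2 hz)]
  norm_cast

theorem exp_mul_log_norm (l : ℕ) {z : ℂ} (hz : z ≠ 0) :
    Real.exp (l * Real.log ‖z‖) = ‖z‖ ^ l := by
  rw [mul_comm, Real.exp_mul, Real.exp_log (norm_pos_iff.2 hz)]
  norm_cast

/-- profile in the logarithmic variable -/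
noncomputable def logprof (m n : ℕ) (V : 𝓢(ℝ, ℂ)) (x : ℝ) : ℂ :=
  (Real.exp ((m : ℝ) * x) : ℂ) * (dd^[n] V) (Real.exp (2 * x))

theorem Tn_high (l n : ℕ) (V : 𝓢(ℝ, ℂ)) {b : ℝ} (h : ∀ t, b < t → V t = 0) {z : ℂ} (hz : z ≠ 0) :
    Tn n (modeMap (l + n + n) (dd^[n] V)) z =
      (z / (‖z‖ : ℝ)) ^ l * Aop (KK l n) (logprof (l + n + n) n V) (Real.log ‖z‖) := by
  rw [← dbar_iter_modeMap, Tn_dbar, dz_iter_PPr, modeMap_apply]
  have h1 := PPr_kernel n l V h (Real.log ‖z‖)
  rw [exp_log_norm hz, exp_mul_log_norm l hz] at h1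
  have e : (fun x : ℝ => (Real.exp ((l + 2 * n : ℕ) * x) : ℂ) * (dd^[n] V) (Real.exp (2 * x)))
      = logprof (l + n + n) n V := by
    ext x
    unfold logprof
    rw [show l + 2 * n = l + n + n by ring]
  rw [e] at h1
  rw [← h1, div_pow]
  have hz' : ((‖z‖ : ℝ) : ℂ) ≠ 0 := by exact_mod_cast norm_ne_zero_iff.2 hz
  push_cast
  field_simp

theorem Tn_low (l k : ℕ) (V : 𝓢(ℝ, ℂ)) {b : ℝ} (h : ∀ t, b < t → V t = 0) {z : ℂ} (hz : z ≠ 0) :
    Tn (l + k) (modeMap (k + (l + k)) (dd^[l + k] V)) z =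
      (starRingEnd ℂ z / (‖z‖ : ℝ)) ^ l *
        Aop (KK l k) (logprof (k + (l + k)) (l + k) V) (Real.log ‖z‖) := by
  rw [← dbar_iter_modeMap, Tn_dbar, Function.iterate_add_apply]
  have h0 := dz_iter_PPr k 0 V
  rw [zero_add] at h0
  rw [h0, ← modeMapC_zero, dz_iter_modeMapC, modeMapC_apply, dd_iter_PPr, zero_add]
  have hvan : ∀ j : ℕ, ∀ t, b < t → (dd^[j] V) t = 0 := by
    intro j
    induction j with
    | zero => exact h
    | succ j ihj => rw [Function.iterate_succ_apply']; exact dd_vanish ihj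
  have h1 := PPr_kernel k l (dd^[l] V) (hvan l) (Real.log ‖z‖)
  rw [exp_log_norm hz, exp_mul_log_norm l hz] at h1
  have e : (fun x : ℝ => (Real.exp ((l + 2 * k : ℕ) * x) : ℂ) *
      (dd^[k] (dd^[l] V)) (Real.exp (2 * x))) = logprof (k + (l + k)) (l + k) V := by
    ext x
    unfold logprof
    rw [show l + 2 * k = k + (l + k) by ring, ← Function.iterate_add_apply, add_comm k l]
  rw [e] at h1
  rw [← h1, div_pow]
  have hz' : ((‖z‖ : ℝ) : ℂ) ≠ 0 := by exact_mod_cast norm_ne_zero_iff.2 hz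
  push_cast
  field_simp

end Pool.Agent.Lib.MP_dd244f_an.OtherModes
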