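import Pool.Agent.Lib.MP_dd244f_an.OtherModes.L1

set_option autoImplicit false

namespace Pool.Agent.Lib.MP_dd244f_an.OtherModes
open MeasureTheory Set Filter Topology

/-! ### the all-pass kernel -/

theorem Q2_UU_le (n : ℕ) : ∀ mu : ℝ, 1 ≤ mu →
    Q 2 (UU mu n) ≤ n * ∑ i ∈ Finset.range n, 1 / (mu + 2 * i) := by
  induction n with
  | zero => intro mu _; simp [UU, Q]
  | succ n ih =>
    intro mu h
    have hmu : 0 < mu := by linarith
    rw [Q2_UU_succ n mu h, Q1_ek hmu, Finset.sum_range_succ']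
    have h1 := ih (mu + 2) (by linarith)
    have h2 : ∀ i ∈ Finset.range n, 2 * (mu + 2 + 2 * (i:ℝ)) * Q 0 (Lop (mu + 2 + 2 * i) (ek mu))
        ≤ (1 / mu + 1 / (mu + 2 + 2 * i)) / (4 * mu) := by
      intro i _
      have hi : (0:ℝ) ≤ i := Nat.cast_nonneg i
      have hb : 0 < mu + 2 + 2 * (i:ℝ) := by positivity
      rw [Q0_Lop_ek hmu hb (by linarith)]
      set b := mu + 2 + 2 * (i:ℝ)
      have : (1 / mu + 1 / b) / (4 * mu) - 2 * b * (1 / (2 * mu * b * (mu + b)))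
          = (mu - b) ^ 2 / (4 * mu ^ 2 * b * (mu + b)) := by
        field_simp
        ring
      have h3 : 0 ≤ (mu - b) ^ 2 / (4 * mu ^ 2 * b * (mu + b)) := by positivity
      linarith
    have h3 := Finset.sum_le_sum h2
    rw [← Finset.sum_div, Finset.sum_add_distrib, Finset.sum_const, Finset.card_range,
      nsmul_eq_mul] at h3
    have e : ∀ i : ℕ, mu + 2 * (((i + 1 : ℕ) : ℝ)) = mu + 2 + 2 * i := fun i => by push_cast; ring
    simp_rw [e]
    have h4 : 4 * mu * (1 / (4 * mu ^ 2) + ∑ i ∈ Finset.range n,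
        2 * (mu + 2 + 2 * (i:ℝ)) * Q 0 (Lop (mu + 2 + 2 * i) (ek mu)))
        ≤ 1 / mu + (n * (1 / mu) + ∑ i ∈ Finset.range n, 1 / (mu + 2 + 2 * (i:ℝ))) := by
      calc _ ≤ 4 * mu * (1 / (4 * mu ^ 2) + (n * (1 / mu) +
            ∑ i ∈ Finset.range n, 1 / (mu + 2 + 2 * (i:ℝ))) / (4 * mu)) := by gcongr
        _ = _ := by field_simp
    push_cast
    simp only [mul_zero, add_zero]
    nlinarith

theorem L1_UU (n : ℕ) {lam : ℝ} (hl : 0 ≤ lam) :
    ∫ t in Ioi (0:ℝ), |UU (lam + 2) n t| ≤ Real.sqrt Real.pi * (if n = 0 then 0 else (n:ℝ) + 1) := by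
  rcases Nat.eq_zero_or_pos n with rfl | hn
  · simp [UU]
  rw [if_neg hn.ne']
  have hn1 : (1:ℝ) ≤ n := by exact_mod_cast hn
  have hA : Q 0 (UU (lam + 2) n) = 2 * n * (lam + (n + 1)) := by
    rw [Q0_UU n _ (by linarith)]
    have : ∑ i ∈ Finset.range n, (lam + 2 + 2 * (i:ℝ)) = n * (lam + (n + 1)) := by
      clear hn hn1
      induction n with
      | zero => simp
      | succ n ih => rw [Finset.sum_range_succ, ih]; push_cast; ring
    rw [this]; ring
  have hV : Q 2 (UU (lam + 2) n) ≤ n * (n * ((n + 1) / (2 * (lam + (n + 1))))) := by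
    refine (Q2_UU_le n _ (by linarith)).trans ?_
    gcongr
    calc ∑ i ∈ Finset.range n, 1 / (lam + 2 + 2 * (i:ℝ))
        ≤ ∑ i ∈ Finset.range n, ((n:ℝ) + 1) / (2 * (lam + (n + 1))) := by
          apply Finset.sum_le_sum
          intro i _
          have hi : (0:ℝ) ≤ i := Nat.cast_nonneg i
          rw [div_le_div_iff₀ (by positivity) (by positivity)]
          nlinarith [mul_nonneg hi hl, mul_nonneg hi (by linarith : (0:ℝ) ≤ n),
            mul_nonneg (by linarith : (0:ℝ) ≤ (n:ℝ) - 1) hl]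
      _ = _ := by rw [Finset.sum_const, Finset.card_range, nsmul_eq_mul]
  have h := L1_bound_half (UU_continuous n (lam + 2)) (UU_Dec n (lam + 2) (by linarith))
    (by positivity : 0 < 2 * (n:ℝ) * (lam + (n + 1)))
    (by positivity : 0 < (n:ℝ) * (n * ((n + 1) / (2 * (lam + (n + 1)))))) hA.le hV
  refine h.trans ?_
  have e : 2 * (n:ℝ) * (lam + (n + 1)) * (n * (n * ((n + 1) / (2 * (lam + (n + 1))))))
      = n ^ 3 * (n + 1) := by
    field_simp
  rw [e]
  have h5 : Real.sqrt ((n:ℝ) ^ 3 * (n + 1)) ≤ ((n:ℝ) + 1) ^ 2 := by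
    rw [Real.sqrt_le_left (by positivity)]
    nlinarith [pow_pos (by linarith : (0:ℝ) < n) 3, pow_pos (by linarith : (0:ℝ) < n) 2]
  calc Real.sqrt (Real.pi * Real.sqrt ((n:ℝ) ^ 3 * (n + 1)))
      ≤ Real.sqrt (Real.pi * ((n:ℝ) + 1) ^ 2) := by
        apply Real.sqrt_le_sqrt
        exact mul_le_mul_of_nonneg_left h5 Real.pi_pos.le
    _ = Real.sqrt Real.pi * ((n:ℝ) + 1) := by
        rw [Real.sqrt_mul Real.pi_pos.le, Real.sqrt_sq (by positivity)]

/-! ### the kernel `h` -/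

/-- `Q 1` of the kernel `h` -/
theorem Q1_H {lam : ℝ} (hl : 1 ≤ lam) (n : ℕ) {mu : ℝ} (hmu : lam < mu) :
    Q 1 (BB (ek lam) mu n) = 1 / (4 * lam ^ 2) +
      (1 / lam) * ∑ i ∈ Finset.range n, 1 / (lam + (mu + 2 * i)) := by
  have hl0 : 0 < lam := by linarith
  rw [Q1_BB (ek_continuous lam) (Dec_ek hl) n mu (by linarith), Q1_ek hl0, Finset.mul_sum]
  congr 1
  apply Finset.sum_congr rfl
  intro i _
  have hi : (0:ℝ) ≤ i := Nat.cast_nonneg i
  have hb : 0 < mu + 2 * (i:ℝ) := by linarith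
  rw [Q0_Lop_ek hl0 hb (by linarith)]
  field_simp

/-- the variance functional -/
noncomputable def VV (lam mu : ℝ) (n : ℕ) : ℝ :=
  Q 2 (BB (ek lam) mu n) - 2 * lam * Q 1 (BB (ek lam) mu n) ^ 2

theorem VV_zero {lam : ℝ} (hl : 1 ≤ lam) (mu : ℝ) : VV lam mu 0 = 1 / (8 * lam ^ 3) := by
  have hl0 : 0 < lam := by linarith
  unfold VV
  simp only [BB]
  rw [Q2_ek hl0, Q1_ek hl0]
  field_simp
  ring

theorem VV_succ {lam : ℝ} (hl : 1 ≤ lam) (n : ℕ) {mu : ℝ} (hmu : lam < mu) :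
    VV lam mu (n + 1) = VV lam (mu + 2) n + 1 / (lam * mu * (lam + mu)) +
      4 * ∑ i ∈ Finset.range n, 1 / ((lam + mu) * (lam + (mu + 2 + 2 * i)) *
        (mu + (mu + 2 + 2 * i))) := by
  have hl0 : 0 < lam := by linarith
  have hmu0 : 0 < mu := by linarith
  unfold VV
  rw [Q2_BB_succ (ek_continuous lam) (Dec_ek hl) n mu (by linarith),
    Q1_Lop_ek hl0 hmu0 (by linarith), Q1_H hl (n + 1) hmu, Q1_H hl n (by linarith : lam < mu + 2),
    Finset.sum_range_succ']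
  have e : ∀ i : ℕ, mu + 2 * (((i + 1 : ℕ) : ℝ)) = mu + 2 + 2 * i := fun i => by push_cast; ring
  simp_rw [e]
  have h2 : ∑ i ∈ Finset.range n, 2 * (mu + 2 + 2 * (i:ℝ)) *
      Q 0 (Lop (mu + 2 + 2 * i) (Lop mu (ek lam))) = (1 / (lam * mu * (lam + mu))) *
        ∑ i ∈ Finset.range n, 1 / (lam + (mu + 2 + 2 * (i:ℝ))) + (1 / mu) *
        ∑ i ∈ Finset.range n, 1 / ((lam + mu) * (lam + (mu + 2 + 2 * i)) *
        (mu + (mu + 2 + 2 * i))) := by
    rw [Finset.mul_sum, Finset.mul_sum, ← Finset.sum_add_distrib]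
    apply Finset.sum_congr rfl
    intro i _
    have hi : (0:ℝ) ≤ i := Nat.cast_nonneg i
    have hb : 0 < mu + 2 + 2 * (i:ℝ) := by linarith
    rw [Q0_Lop_Lop_ek hl0 hb hmu0 (by linarith) (by linarith) (by linarith)]
    set b := mu + 2 + 2 * (i:ℝ)
    field_simp
    ring
  rw [h2]
  set S1 := ∑ i ∈ Finset.range n, 1 / (lam + (mu + 2 + 2 * (i:ℝ)))
  set S2 := ∑ i ∈ Finset.range n, 1 / ((lam + mu) * (lam + (mu + 2 + 2 * (i:ℝ))) *
        (mu + (mu + 2 + 2 * i)))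
  simp only [CharP.cast_eq_zero, mul_zero, add_zero]
  field_simp
  ring

end Pool.Agent.Lib.MP_dd244f_an.OtherModes
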