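import Pool.Agent.Lib.MP_dd244f_an.OtherModes.Dec

set_option autoImplicit false

namespace Pool.Agent.Lib.MP_dd244f_an.OtherModes
open MeasureTheory Set Filter Topology

/-- the kernel of `T^N` on the mode `lam + 2 N` -/
noncomputable def KK : ℝ → ℕ → ℝ → ℝ
  | _, 0 => fun _ => 0
  | lam, N + 1 => step lam (2 * lam + 2) (KK (lam + 2) N)

/-- the kernel of the all-pass product `∏_{i<n} (D + mu + 2 i) / (D - mu - 2 i)` -/
noncomputable def UU : ℝ → ℕ → ℝ → ℝ
  | _, 0 => fun _ => 0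
  | mu, n + 1 => step mu (2 * mu) (UU (mu + 2) n)

/-- the all-pass product applied to a function -/
noncomputable def BB (f : ℝ → ℝ) : ℝ → ℕ → ℝ → ℝ
  | _, 0 => f
  | mu, n + 1 => fun t => BB f (mu + 2) n t - 2 * mu * Lop mu (BB f (mu + 2) n) t

theorem UU_continuous (n : ℕ) : ∀ mu, Continuous (UU mu n) := by
  induction n with
  | zero => intro mu; exact continuous_const
  | succ n ih => intro mu; exact step_continuous _ _ (ih _)

theorem KK_continuous (n : ℕ) : ∀ mu, Continuous (KK mu n) := by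
  induction n with
  | zero => intro mu; exact continuous_const
  | succ n ih => intro mu; exact step_continuous _ _ (ih _)

theorem BB_continuous {f : ℝ → ℝ} (hf : Continuous f) (n : ℕ) : ∀ mu, Continuous (BB f mu n) := by
  induction n with
  | zero => intro mu; exact hf
  | succ n ih =>
    intro mu
    exact (ih _).sub (continuous_const.mul (Lop_continuous _ (ih _)))

theorem UU_Dec (n : ℕ) : ∀ mu, 1 ≤ mu → Dec (UU mu n) := by
  induction n with
  | zero => intro mu _; exact ⟨0, le_refl _, fun t _ => by simp [UU]⟩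
  | succ n ih => intro mu h; exact Dec_step _ h (UU_continuous n _) (ih _ (by linarith))

theorem BB_Dec {f : ℝ → ℝ} (hf : Continuous f) (hd : Dec f) (n : ℕ) :
    ∀ mu, 1 ≤ mu → Dec (BB f mu n) := by
  induction n with
  | zero => intro mu _; exact hd
  | succ n ih =>
    intro mu h
    exact Dec_sub_mul _ (ih _ (by linarith)) (Dec_Lop h (BB_continuous hf n _) (ih _ (by linarith)))

/-- regrouping of the kernel of `T^(N+1)` -/
theorem KK_eq (N : ℕ) : ∀ lam : ℝ,
    KK lam (N + 1) = step lam (2 * lam + 2 * N + 2) (UU (lam + 2) N) := by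
  induction N with
  | zero => intro lam; simp [KK, UU]
  | succ N ih =>
    intro lam
    have h1 : KK lam (N + 1 + 1) = step lam (2 * lam + 2) (KK (lam + 2) (N + 1)) := rfl
    rw [h1, ih]
    have e1 : 2 * lam + 2 = lam + (lam + 2) := by ring
    have e2 : 2 * (lam + 2) + 2 * (N:ℝ) + 2 = (lam + 2) + (lam + 2 * N + 4) := by ring
    rw [e1, e2, step_regroup (by linarith) _ _ (UU_continuous N _)]
    have e3 : lam + (lam + 2 * (N:ℝ) + 4) = 2 * lam + 2 * ((N + 1 : ℕ) : ℝ) + 2 := by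
      push_cast; ring
    have e4 : (lam + 2) + (lam + 2) = 2 * (lam + 2) := by ring
    rw [e3, e4]
    rfl

theorem Lop_BB (b : ℝ) {f : ℝ → ℝ} (hf : Continuous f) (n : ℕ) : ∀ mu t,
    Lop b (BB f mu n) t = BB (Lop b f) mu n t := by
  induction n with
  | zero => intro mu t; rfl
  | succ n ih =>
    intro mu t
    have hc := BB_continuous hf n (mu + 2)
    have h1 := Lop_sub_mul b (2 * mu) hc (Lop_continuous mu hc) t
    have h2 : Lop b (BB f mu (n + 1)) t
        = Lop b (fun s => BB f (mu + 2) n s - 2 * mu * Lop mu (BB f (mu + 2) n) s) t := rfl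
    rw [h2, h1, Lop_comm b mu hc]
    have h3 : Lop b (BB f (mu + 2) n) = BB (Lop b f) (mu + 2) n := funext (ih (mu + 2))
    rw [h3]
    rfl

theorem ek_add_Lop_UU (a : ℝ) (n : ℕ) : ∀ mu t,
    ek a t + Lop a (UU mu n) t = BB (ek a) mu n t := by
  induction n with
  | zero =>
    intro mu t
    have : Lop a (UU mu 0) t = 0 := by simp [UU, Lop]
    rw [this]; simp [BB]
  | succ n ih =>
    intro mu t
    have hc := UU_continuous n (mu + 2)
    have h1 : Lop a (UU mu (n + 1)) t = Lop a (step mu (2 * mu) (UU (mu + 2) n)) t := rfl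
    rw [h1, Lop_step a mu _ hc]
    have h2 : BB (ek a) mu (n + 1) t
      = BB (ek a) (mu + 2) n t - 2 * mu * Lop mu (BB (ek a) (mu + 2) n) t := rfl
    have h3 : BB (ek a) (mu + 2) n = fun t => ek a t + Lop a (UU (mu + 2) n) t :=
      funext fun t => (ih _ t).symm
    rw [h2, h3, Lop_add mu (ek_continuous a) (Lop_continuous a hc), Lop_ek_comm mu a,
      Lop_comm mu a hc]
    ring

theorem Q0_BB {f : ℝ → ℝ} (hf : Continuous f) (hd : Dec f) (n : ℕ) :
    ∀ mu, 1 ≤ mu → Q 0 (BB f mu n) = Q 0 f := by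
  induction n with
  | zero => intro mu _; rfl
  | succ n ih =>
    intro mu h
    have hc := BB_continuous hf n (mu + 2)
    have hD := BB_Dec hf hd n (mu + 2) (by linarith)
    have h1 := Q_allpass 0 mu hc hD (fun t => Lop_hasDerivAt mu hc t) (Dec_Lop h hc hD)
    rw [Lop_zero] at h1
    simp only [Nat.cast_zero, zero_mul, mul_zero, add_zero, ne_eq, OfNat.ofNat_ne_zero,
      not_false_eq_true, zero_pow] at h1
    have h2 : BB f mu (n + 1)
      = fun t => BB f (mu + 2) n t - 2 * mu * Lop mu (BB f (mu + 2) n) t := rfl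
    rw [h2, h1, ih _ (by linarith)]

theorem Q1_BB {f : ℝ → ℝ} (hf : Continuous f) (hd : Dec f) (n : ℕ) :
    ∀ mu, 1 ≤ mu → Q 1 (BB f mu n) = Q 1 f +
      ∑ i ∈ Finset.range n, 2 * (mu + 2 * i) * Q 0 (Lop (mu + 2 * i) f) := by
  induction n with
  | zero => intro mu _; simp [BB]
  | succ n ih =>
    intro mu h
    have hc := BB_continuous hf n (mu + 2)
    have hD := BB_Dec hf hd n (mu + 2) (by linarith)
    have h1 := Q_allpass 1 mu hc hD (fun t => Lop_hasDerivAt mu hc t) (Dec_Lop h hc hD)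
    rw [Lop_zero] at h1
    have h2 : BB f mu (n + 1)
      = fun t => BB f (mu + 2) n t - 2 * mu * Lop mu (BB f (mu + 2) n) t := rfl
    have h3 : Lop mu (BB f (mu + 2) n) = BB (Lop mu f) (mu + 2) n :=
      funext (Lop_BB mu hf n (mu + 2))
    rw [h2, h1, ih _ (by linarith), Finset.sum_range_succ', h3]
    simp only [Nat.cast_one, one_mul, Nat.sub_self, Nat.cast_zero, mul_zero, add_zero,
      Nat.cast_add, ne_eq, OfNat.ofNat_ne_zero, not_false_eq_true, zero_pow]
    rw [Q0_BB (Lop_continuous mu hf) (Dec_Lop h hf hd) n _ (by linarith)]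
    have e : ∀ i : ℕ, mu + 2 * ((i:ℝ) + 1) = mu + 2 + 2 * i := fun i => by ring
    simp_rw [e]
    ring

theorem Q2_BB_succ {f : ℝ → ℝ} (hf : Continuous f) (hd : Dec f) (n : ℕ) (mu : ℝ) (h : 1 ≤ mu) :
    Q 2 (BB f mu (n + 1)) = Q 2 (BB f (mu + 2) n) + 4 * mu * (Q 1 (Lop mu f) +
      ∑ i ∈ Finset.range n, 2 * (mu + 2 + 2 * i) * Q 0 (Lop (mu + 2 + 2 * i) (Lop mu f))) := by
  have hc := BB_continuous hf n (mu + 2)
  have hD := BB_Dec hf hd n (mu + 2) (by linarith)
  have h1 := Q_allpass 2 mu hc hD (fun t => Lop_hasDerivAt mu hc t) (Dec_Lop h hc hD)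
  rw [Lop_zero] at h1
  have h2 : BB f mu (n + 1)
    = fun t => BB f (mu + 2) n t - 2 * mu * Lop mu (BB f (mu + 2) n) t := rfl
  have h3 : Lop mu (BB f (mu + 2) n) = BB (Lop mu f) (mu + 2) n :=
    funext (Lop_BB mu hf n (mu + 2))
  rw [h2, h1, h3]
  simp only [Nat.cast_ofNat, Nat.add_one_sub_one, ne_eq, OfNat.ofNat_ne_zero,
    not_false_eq_true, zero_pow, mul_zero, add_zero]
  rw [Q1_BB (Lop_continuous mu hf) (Dec_Lop h hf hd) n _ (by linarith)]
  ring

theorem UU_step_form (mu : ℝ) (n : ℕ) :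
    UU mu (n + 1) = fun t => UU (mu + 2) n t - 2 * mu * BB (ek mu) (mu + 2) n t := by
  ext t
  have h1 : UU mu (n + 1) t
    = UU (mu + 2) n t - 2 * mu * (ek mu t + Lop mu (UU (mu + 2) n) t) := rfl
  rw [h1, ek_add_Lop_UU]

theorem BB_hasDerivAt (mu : ℝ) (n : ℕ) (t : ℝ) : HasDerivAt (BB (ek mu) (mu + 2) n)
    (UU (mu + 2) n t - mu * BB (ek mu) (mu + 2) n t) t := by
  have h3 : BB (ek mu) (mu + 2) n = fun t => ek mu t + Lop mu (UU (mu + 2) n) t :=
    funext fun t => (ek_add_Lop_UU _ _ _ t).symm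
  rw [h3]
  refine ((ek_hasDerivAt mu t).add (Lop_hasDerivAt mu (UU_continuous n (mu + 2)) t)).congr_deriv ?_
  ring

theorem BB_ek_zero (mu : ℝ) (n : ℕ) : BB (ek mu) (mu + 2) n 0 = 1 := by
  rw [← ek_add_Lop_UU, Lop_zero, ek_zero, add_zero]

theorem Q0_UU (n : ℕ) : ∀ mu, 1 ≤ mu → Q 0 (UU mu n) = 2 * ∑ i ∈ Finset.range n, (mu + 2 * i) := by
  induction n with
  | zero => intro mu _; simp [UU, Q]
  | succ n ih =>
    intro mu h
    have h1 := Q_allpass 0 mu (UU_continuous n (mu + 2)) (UU_Dec n (mu + 2) (by linarith))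
      (BB_hasDerivAt mu n) (BB_Dec (ek_continuous mu) (Dec_ek h) n _ (by linarith))
    rw [UU_step_form, h1, ih _ (by linarith), Finset.sum_range_succ', BB_ek_zero]
    have e : ∀ i : ℕ, mu + 2 * (((i + 1 : ℕ) : ℝ)) = mu + 2 + 2 * i := fun i => by push_cast; ring
    simp_rw [e]
    simp
    ring

theorem Q2_UU_succ (n : ℕ) (mu : ℝ) (h : 1 ≤ mu) :
    Q 2 (UU mu (n + 1)) = Q 2 (UU (mu + 2) n) + 4 * mu * (Q 1 (ek mu) +
      ∑ i ∈ Finset.range n, 2 * (mu + 2 + 2 * i) * Q 0 (Lop (mu + 2 + 2 * i) (ek mu))) := by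
  have h1 := Q_allpass 2 mu (UU_continuous n (mu + 2)) (UU_Dec n (mu + 2) (by linarith))
    (BB_hasDerivAt mu n) (BB_Dec (ek_continuous mu) (Dec_ek h) n _ (by linarith))
  rw [UU_step_form, h1]
  simp only [Nat.cast_ofNat, Nat.add_one_sub_one, ne_eq, OfNat.ofNat_ne_zero,
    not_false_eq_true, zero_pow, zero_mul, mul_zero, add_zero]
  rw [Q1_BB (ek_continuous mu) (Dec_ek h) n _ (by linarith)]
  ring

end Pool.Agent.Lib.MP_dd244f_an.OtherModes
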