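import Pool.Agent.Lib.MP_dd244f_an.OtherModes.Kern

set_option autoImplicit false

namespace Pool.Agent.Lib.MP_dd244f_an.OtherModes
open MeasureTheory Set Filter Topology

/-- exponential decay on the positive half line -/
def Dec (f : ℝ → ℝ) : Prop := ∃ C : ℝ, 0 ≤ C ∧ ∀ t, 0 ≤ t → |f t| ≤ C * Real.exp (-t / 2)

/-- weighted square integral -/
noncomputable def Q (i : ℕ) (f : ℝ → ℝ) : ℝ := ∫ t in Ioi (0:ℝ), t ^ i * f t ^ 2

theorem Dec_ek {a : ℝ} (ha : 1 ≤ a) : Dec (ek a) := by
  refine ⟨1, zero_le_one, fun t ht => ?_⟩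
  unfold ek
  rw [abs_of_pos (Real.exp_pos _), one_mul]
  apply Real.exp_le_exp.2
  nlinarith

theorem Dec_Lop {a : ℝ} (ha : 1 ≤ a) {f : ℝ → ℝ} (hf : Continuous f) (hd : Dec f) :
    Dec (Lop a f) := by
  obtain ⟨C, hC, h⟩ := hd
  refine ⟨2 * C, by positivity, fun t ht => ?_⟩
  unfold Lop
  rw [abs_mul, abs_of_pos (Real.exp_pos _)]
  have h1 : |∫ s in (0:ℝ)..t, Real.exp (a * s) * f s| ≤
      ∫ s in (0:ℝ)..t, C * Real.exp ((a - 1 / 2) * s) := by
    apply (intervalIntegral.abs_integral_le_integral_abs ht).trans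
    apply intervalIntegral.integral_mono_on ht
    · exact (by fun_prop : Continuous fun s => |Real.exp (a * s) * f s|).intervalIntegrable _ _
    · exact (by fun_prop : Continuous fun s => C * Real.exp ((a - 1 / 2) * s)).intervalIntegrable _ _
    · intro s hs
      rw [abs_mul, abs_of_pos (Real.exp_pos _)]
      have h2 := h s hs.1
      calc Real.exp (a * s) * |f s| ≤ Real.exp (a * s) * (C * Real.exp (-s / 2)) := by gcongr
        _ = C * Real.exp ((a - 1 / 2) * s) := by
          rw [mul_left_comm, ← Real.exp_add]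
          congr 2; ring
  have ha' : 0 < a - 1 / 2 := by linarith
  have h3 : ∫ s in (0:ℝ)..t, C * Real.exp ((a - 1 / 2) * s) =
      C * ((Real.exp ((a - 1 / 2) * t) - 1) / (a - 1 / 2)) := by
    rw [intervalIntegral.integral_const_mul]
    congr 1
    have h4 : ∀ s ∈ uIcc 0 t, HasDerivAt (fun s => Real.exp ((a - 1 / 2) * s) / (a - 1 / 2))
        (Real.exp ((a - 1 / 2) * s)) s := by
      intro s _
      have h5 : HasDerivAt (fun s => Real.exp ((a - 1 / 2) * s))
          (Real.exp ((a - 1 / 2) * s) * (a - 1 / 2)) s := by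
        have := ((hasDerivAt_id s).const_mul (a - 1 / 2)).exp
        simpa using this
      refine (h5.div_const _).congr_deriv ?_
      rw [mul_div_assoc, div_self ha'.ne', mul_one]
    rw [intervalIntegral.integral_eq_sub_of_hasDerivAt h4]
    · simp; field_simp
    · exact (by fun_prop : Continuous fun s => Real.exp ((a - 1 / 2) * s)).intervalIntegrable _ _
  rw [h3] at h1
  calc Real.exp (-a * t) * |∫ s in (0:ℝ)..t, Real.exp (a * s) * f s|
      ≤ Real.exp (-a * t) * (C * ((Real.exp ((a - 1 / 2) * t) - 1) / (a - 1 / 2))) := by gcongr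
    _ ≤ Real.exp (-a * t) * (C * (Real.exp ((a - 1 / 2) * t) * 2)) := by
        gcongr
        rw [div_le_iff₀ ha']
        have := Real.exp_pos ((a - 1 / 2) * t)
        nlinarith
    _ = 2 * C * Real.exp (-t / 2) := by
        have e : Real.exp (-t / 2) = Real.exp (-a * t) * Real.exp ((a - 1 / 2) * t) := by
          rw [← Real.exp_add]; congr 1; ring
        rw [e]; ring

theorem Dec_sub_mul {f g : ℝ → ℝ} (c : ℝ) (hf : Dec f) (hg : Dec g) :
    Dec (fun t => f t - c * g t) := by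
  obtain ⟨C, hC, h⟩ := hf
  obtain ⟨D, hD, h'⟩ := hg
  refine ⟨C + |c| * D, by positivity, fun t ht => ?_⟩
  have h1 := h t ht
  have h2 := h' t ht
  calc |f t - c * g t| ≤ |f t| + |c * g t| := abs_sub _ _
    _ = |f t| + |c| * |g t| := by rw [abs_mul]
    _ ≤ C * Real.exp (-t / 2) + |c| * (D * Real.exp (-t / 2)) := by gcongr
    _ = (C + |c| * D) * Real.exp (-t / 2) := by ring

theorem Dec_add {f g : ℝ → ℝ} (hf : Dec f) (hg : Dec g) : Dec (fun t => f t + g t) := by
  have := Dec_sub_mul (-1) hf hg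
  simpa using this

theorem Dec_step {a : ℝ} (β : ℝ) (ha : 1 ≤ a) {f : ℝ → ℝ} (hf : Continuous f) (hd : Dec f) :
    Dec (step a β f) :=
  Dec_sub_mul β hd (Dec_add (Dec_ek ha) (Dec_Lop ha hf hd))

theorem integrable_pow_exp (i : ℕ) : IntegrableOn (fun t : ℝ => t ^ i * Real.exp (-t)) (Ioi 0) := by
  have h := Real.GammaIntegral_convergent (s := i + 1) (by positivity)
  refine h.congr_fun ?_ measurableSet_Ioi
  intro t ht
  simp only [add_sub_cancel_right, Real.rpow_natCast]
  ring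

theorem integrable_Q (i : ℕ) {f g : ℝ → ℝ} (hf : Continuous f) (hg : Continuous g)
    (hd : Dec f) (hd' : Dec g) : IntegrableOn (fun t : ℝ => t ^ i * (f t * g t)) (Ioi 0) := by
  obtain ⟨C, hC, h⟩ := hd
  obtain ⟨D, hD, h'⟩ := hd'
  have h1 := (integrable_pow_exp i).const_mul (C * D)
  refine Integrable.mono' h1 ?_ ?_
  · exact (by fun_prop : Continuous fun t : ℝ => t ^ i * (f t * g t)).aestronglyMeasurable
  · rw [ae_restrict_iff' measurableSet_Ioi]
    filter_upwards with t ht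
    have ht' : (0:ℝ) < t := ht
    rw [Real.norm_eq_abs, abs_mul, abs_mul, abs_of_pos (pow_pos ht' i)]
    have e : Real.exp (-t) = Real.exp (-t / 2) * Real.exp (-t / 2) := by
      rw [← Real.exp_add]; congr 1; ring
    rw [e]
    calc t ^ i * (|f t| * |g t|) ≤ t ^ i * ((C * Real.exp (-t / 2)) * (D * Real.exp (-t / 2))) := by
          gcongr
          · exact h t ht'.le
          · exact h' t ht'.le
      _ = _ := by ring

theorem integrable_Q' (i : ℕ) {f : ℝ → ℝ} (hf : Continuous f) (hd : Dec f) :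
    IntegrableOn (fun t : ℝ => t ^ i * f t ^ 2) (Ioi 0) := by
  have := integrable_Q i hf hf hd hd
  simpa [sq] using this

theorem integrable_Dec {f : ℝ → ℝ} (hf : Continuous f) (hd : Dec f) :
    IntegrableOn f (Ioi 0) := by
  obtain ⟨C, hC, h⟩ := hd
  have h0 : IntegrableOn (fun t : ℝ => Real.exp (-(1/2) * t)) (Ioi 0) :=
    integrableOn_exp_mul_Ioi (by norm_num) 0
  have h1 := h0.const_mul C
  refine Integrable.mono' h1 hf.aestronglyMeasurable ?_
  rw [ae_restrict_iff' measurableSet_Ioi]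
  filter_upwards with t ht
  rw [Real.norm_eq_abs]
  refine (h t (le_of_lt ht)).trans (le_of_eq ?_)
  congr 2; ring

theorem tendsto_pow_exp (i : ℕ) : Tendsto (fun t : ℝ => t ^ i * Real.exp (-t)) atTop (𝓝 0) :=
  Real.tendsto_pow_mul_exp_neg_atTop_nhds_zero i

theorem tendsto_Q (i : ℕ) {f : ℝ → ℝ} (hd : Dec f) :
    Tendsto (fun t : ℝ => t ^ i * f t ^ 2) atTop (𝓝 0) := by
  obtain ⟨C, hC, h⟩ := hd
  have h1 : Tendsto (fun t : ℝ => C ^ 2 * (t ^ i * Real.exp (-t))) atTop (𝓝 (C ^ 2 * 0)) :=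
    (tendsto_pow_exp i).const_mul _
  rw [mul_zero] at h1
  refine squeeze_zero' ?_ ?_ h1
  · filter_upwards [eventually_ge_atTop 0] with t ht
    positivity
  · filter_upwards [eventually_ge_atTop 0] with t ht
    have e : Real.exp (-t) = Real.exp (-t / 2) * Real.exp (-t / 2) := by
      rw [← Real.exp_add]; congr 1; ring
    have h2 : f t ^ 2 ≤ (C * Real.exp (-t / 2)) ^ 2 := by
      rw [← sq_abs]
      exact pow_le_pow_left₀ (abs_nonneg _) (h t ht) 2
    calc t ^ i * f t ^ 2 ≤ t ^ i * (C * Real.exp (-t / 2)) ^ 2 := by gcongr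
      _ = C ^ 2 * (t ^ i * Real.exp (-t)) := by rw [e]; ring

/-- the all-pass identity -/
theorem Q_allpass (i : ℕ) (a : ℝ) {f v : ℝ → ℝ} (hf : Continuous f)
    (hd : Dec f) (hv : ∀ t, HasDerivAt v (f t - a * v t) t) (hdv : Dec v) :
    Q i (fun t => f t - 2 * a * v t) = Q i f + 2 * a * (i * Q (i - 1) v) +
      2 * a * (0 ^ i * v 0 ^ 2) := by
  have hvc : Continuous v := by
    rw [continuous_iff_continuousAt]; exact fun t => (hv t).continuousAt
  -- derivative of t^i v^2
  have h1 : ∀ t, HasDerivAt (fun t => t ^ i * v t ^ 2)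
      (i * (t ^ (i - 1) * v t ^ 2) + 2 * (t ^ i * (v t * f t) - a * (t ^ i * v t ^ 2))) t := by
    intro t
    have h2 : HasDerivAt (fun t : ℝ => t ^ i) (i * t ^ (i - 1)) t := hasDerivAt_pow i t
    have h3 : HasDerivAt (fun t => v t ^ 2) (2 * v t * (f t - a * v t)) t := by
      have := (hv t).fun_pow 2
      simpa using this
    refine (h2.mul h3).congr_deriv ?_
    ring
  have i1 := integrable_Q' (i - 1) hvc hdv
  have i2 := integrable_Q i hvc hf hdv hd
  have i3 := integrable_Q' i hvc hdv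
  have i3a : IntegrableOn (fun t : ℝ => a * (t ^ i * v t ^ 2)) (Ioi 0) := i3.const_mul a
  have i23 : IntegrableOn (fun t : ℝ => t ^ i * (v t * f t) - a * (t ^ i * v t ^ 2)) (Ioi 0) :=
    i2.sub i3a
  have i1a : IntegrableOn (fun t : ℝ => i * (t ^ (i - 1) * v t ^ 2)) (Ioi 0) := i1.const_mul _
  have i23a : IntegrableOn (fun t : ℝ => 2 * (t ^ i * (v t * f t) - a * (t ^ i * v t ^ 2)))
    (Ioi 0) := i23.const_mul 2
  have i23b : IntegrableOn (fun t : ℝ => 4 * a * (t ^ i * (v t * f t) - a * (t ^ i * v t ^ 2)))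
    (Ioi 0) := i23.const_mul _
  have h4 := integral_Ioi_of_hasDerivAt_of_tendsto (f := fun t => t ^ i * v t ^ 2) (a := 0) (m := 0)
    (f' := fun t => i * (t ^ (i - 1) * v t ^ 2) +
      2 * (t ^ i * (v t * f t) - a * (t ^ i * v t ^ 2)))
    (h1 0).continuousAt.continuousWithinAt (fun t _ => h1 t) (i1a.add i23a) (tendsto_Q i hdv)
  have e1 : ∫ t in Ioi (0:ℝ), (t ^ i * (v t * f t) - a * (t ^ i * v t ^ 2))
      = (∫ t in Ioi (0:ℝ), t ^ i * (v t * f t)) - a * ∫ t in Ioi (0:ℝ), t ^ i * v t ^ 2 := by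
    rw [integral_sub i2 i3a, integral_const_mul]
  rw [integral_add i1a i23a, integral_const_mul, integral_const_mul, e1] at h4
  have i4 := integrable_Q' i hf hd
  have h5 : Q i (fun t => f t - 2 * a * v t) = ∫ t in Ioi (0:ℝ), (t ^ i * f t ^ 2 -
      4 * a * (t ^ i * (v t * f t) - a * (t ^ i * v t ^ 2))) := by
    unfold Q
    congr 1
    ext t
    ring
  rw [h5, integral_sub i4 i23b, integral_const_mul, e1]
  unfold Q
  linear_combination (-2 * a) * h4

end Pool.Agent.Lib.MP_dd244f_an.OtherModes
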