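import Mathlib

set_option autoImplicit false

namespace Pool.Agent.Lib.MP_dd244f_an.OtherModes
open MeasureTheory Set Filter Topology

/-- convolution on the half line with the exponential `exp (-a t)` -/
noncomputable def Lop (a : ℝ) (k : ℝ → ℝ) (t : ℝ) : ℝ :=
  Real.exp (-a * t) * ∫ s in (0:ℝ)..t, Real.exp (a * s) * k s

/-- the exponential kernel -/
noncomputable def ek (a : ℝ) (t : ℝ) : ℝ := Real.exp (-a * t)

/-- multiplication by `δ - β e_a` in the convolution algebra, acting on the regular part -/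
noncomputable def step (a β : ℝ) (k : ℝ → ℝ) (t : ℝ) : ℝ := k t - β * (ek a t + Lop a k t)

theorem Lop_zero (a : ℝ) (k : ℝ → ℝ) : Lop a k 0 = 0 := by simp [Lop]

theorem Lop_hasDerivAt (a : ℝ) {k : ℝ → ℝ} (hk : Continuous k) (t : ℝ) :
    HasDerivAt (Lop a k) (k t - a * Lop a k t) t := by
  have h1 : HasDerivAt (fun t => Real.exp (-a * t)) (Real.exp (-a * t) * (-a)) t := by
    have := ((hasDerivAt_id t).const_mul (-a)).exp
    simpa using this
  have hc : Continuous fun s => Real.exp (a * s) * k s := by fun_prop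
  have h2 : HasDerivAt (fun t => ∫ s in (0:ℝ)..t, Real.exp (a * s) * k s)
      (Real.exp (a * t) * k t) t := (hc.integral_hasStrictDerivAt 0 t).hasDerivAt
  have h3 := h1.mul h2
  have e : Real.exp (-a * t) * Real.exp (a * t) = 1 := by
    rw [← Real.exp_add]; simp
  have h4 : HasDerivAt (Lop a k) (Real.exp (-a * t) * (-a) * (∫ s in (0:ℝ)..t, Real.exp (a * s) * k s)
      + Real.exp (-a * t) * (Real.exp (a * t) * k t)) t := h3
  refine h4.congr_deriv ?_
  unfold Lop
  linear_combination (k t) * e

theorem Lop_continuous (a : ℝ) {k : ℝ → ℝ} (hk : Continuous k) : Continuous (Lop a k) := by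
  rw [continuous_iff_continuousAt]
  exact fun t => (Lop_hasDerivAt a hk t).continuousAt

theorem ek_hasDerivAt (a t : ℝ) : HasDerivAt (ek a) (-a * ek a t) t := by
  have := ((hasDerivAt_id t).const_mul (-a)).exp
  refine (this.congr_deriv ?_)
  simp [ek]; ring

theorem ek_continuous (a : ℝ) : Continuous (ek a) := by
  unfold ek; fun_prop

theorem ek_zero (a : ℝ) : ek a 0 = 1 := by simp [ek]

theorem step_continuous (a β : ℝ) {k : ℝ → ℝ} (hk : Continuous k) : Continuous (step a β k) := by
  unfold step
  exact hk.sub (continuous_const.mul ((ek_continuous a).add (Lop_continuous a hk)))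

/-- uniqueness for `W' = -a W`, `W 0 = 0` -/
theorem ode_zero {a : ℝ} {W : ℝ → ℝ} (hW : ∀ t, HasDerivAt W (-a * W t) t) (h0 : W 0 = 0) (t : ℝ) :
    W t = 0 := by
  have h1 : ∀ t, HasDerivAt (fun t => Real.exp (a * t) * W t) 0 t := by
    intro t
    have h2 : HasDerivAt (fun t => Real.exp (a * t)) (Real.exp (a * t) * a) t := by
      have := ((hasDerivAt_id t).const_mul a).exp
      simpa using this
    refine (h2.mul (hW t)).congr_deriv ?_
    ring
  have h3 := is_const_of_deriv_eq_zero (fun t => (h1 t).differentiableAt) (fun t => (h1 t).deriv) t 0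
  simp only [h0, mul_zero] at h3
  exact (mul_eq_zero.1 h3).resolve_left (Real.exp_ne_zero _)

theorem Lop_ek {a b : ℝ} (hab : a ≠ b) (t : ℝ) :
    Lop a (ek b) t = (ek b t - ek a t) / (a - b) := by
  have hne : a - b ≠ 0 := sub_ne_zero.2 hab
  have h := ode_zero (a := a) (W := fun t => Lop a (ek b) t - (ek b t - ek a t) / (a - b)) ?_ ?_ t
  · linarith
  · intro t
    have h1 := (Lop_hasDerivAt a (ek_continuous b) t).sub
      (((ek_hasDerivAt b t).sub (ek_hasDerivAt a t)).div_const (a - b))
    refine h1.congr_deriv ?_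
    field_simp
    ring
  · simp [Lop_zero, ek_zero]

/-- resolvent identity -/
theorem Lop_Lop {a b : ℝ} (hab : a ≠ b) {k : ℝ → ℝ} (hk : Continuous k) (t : ℝ) :
    Lop a (Lop b k) t = (Lop b k t - Lop a k t) / (a - b) := by
  have hne : a - b ≠ 0 := sub_ne_zero.2 hab
  have h := ode_zero (a := a) (W := fun t => Lop a (Lop b k) t - (Lop b k t - Lop a k t) / (a - b))
    ?_ ?_ t
  · linarith
  · intro t
    have h1 := (Lop_hasDerivAt a (Lop_continuous b hk) t).sub
      (((Lop_hasDerivAt b hk t).sub (Lop_hasDerivAt a hk t)).div_const (a - b))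
    refine h1.congr_deriv ?_
    field_simp
    ring
  · simp [Lop_zero]

theorem Lop_comm (a b : ℝ) {k : ℝ → ℝ} (hk : Continuous k) (t : ℝ) :
    Lop a (Lop b k) t = Lop b (Lop a k) t := by
  rcases eq_or_ne a b with rfl | hab
  · rfl
  · rw [Lop_Lop hab hk, Lop_Lop hab.symm hk]
    have hne : a - b ≠ 0 := sub_ne_zero.2 hab
    have hne' : b - a ≠ 0 := sub_ne_zero.2 hab.symm
    field_simp
    ring

theorem Lop_ek_comm (a b : ℝ) (t : ℝ) : Lop a (ek b) t = Lop b (ek a) t := by
  rcases eq_or_ne a b with rfl | hab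
  · rfl
  · rw [Lop_ek hab, Lop_ek hab.symm]
    have hne : a - b ≠ 0 := sub_ne_zero.2 hab
    have hne' : b - a ≠ 0 := sub_ne_zero.2 hab.symm
    field_simp
    ring

theorem Lop_sub_mul (a c : ℝ) {k l : ℝ → ℝ} (hk : Continuous k) (hl : Continuous l) (t : ℝ) :
    Lop a (fun s => k s - c * l s) t = Lop a k t - c * Lop a l t := by
  unfold Lop
  have h1 : ∫ s in (0:ℝ)..t, Real.exp (a * s) * (k s - c * l s)
      = (∫ s in (0:ℝ)..t, Real.exp (a * s) * k s) - c * ∫ s in (0:ℝ)..t, Real.exp (a * s) * l s := by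
    rw [← intervalIntegral.integral_const_mul, ← intervalIntegral.integral_sub]
    · congr 1; ext s; ring
    · exact (by fun_prop : Continuous fun s => Real.exp (a * s) * k s).intervalIntegrable _ _
    · exact (by fun_prop : Continuous fun s => c * (Real.exp (a * s) * l s)).intervalIntegrable _ _
  rw [h1]; ring

theorem Lop_add (a : ℝ) {k l : ℝ → ℝ} (hk : Continuous k) (hl : Continuous l) (t : ℝ) :
    Lop a (fun s => k s + l s) t = Lop a k t + Lop a l t := by
  have := Lop_sub_mul a (-1) hk hl t
  simpa using this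

theorem Lop_congr (a : ℝ) {k l : ℝ → ℝ} (h : ∀ t, k t = l t) (t : ℝ) : Lop a k t = Lop a l t := by
  have : k = l := funext h
  rw [this]

theorem Lop_step (a b β : ℝ) {k : ℝ → ℝ} (hk : Continuous k) (t : ℝ) :
    Lop a (step b β k) t = Lop a k t - β * (Lop a (ek b) t + Lop a (Lop b k) t) := by
  have hc : Continuous (fun s => ek b s + Lop b k s) :=
    (ek_continuous b).add (Lop_continuous b hk)
  have h1 := Lop_sub_mul a β hk hc t
  rw [Lop_add a (ek_continuous b) (Lop_continuous b hk)] at h1
  exact h1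

/-- exchanging the numerators of two factors `(D + d) / (D - a)` -/
theorem step_regroup {a b : ℝ} (hab : a ≠ b) (d d' : ℝ) {k : ℝ → ℝ} (hk : Continuous k) :
    step a (a + d) (step b (b + d') k) = step a (a + d') (step b (b + d) k) := by
  have hne : a - b ≠ 0 := sub_ne_zero.2 hab
  ext t
  have key : ∀ β : ℝ, ∀ α : ℝ, step a α (step b β k) t
      = k t - (α + α * β / (a - b)) * (ek a t + Lop a k t)
        - (β - α * β / (a - b)) * (ek b t + Lop b k t) := by
    intro β α
    change step b β k t - α * (ek a t + Lop a (step b β k) t) = _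
    rw [Lop_step a b β hk, Lop_ek hab, Lop_Lop hab hk]
    unfold step
    field_simp
    ring
  rw [key, key]
  field_simp
  ring

theorem step_comm (a b α β : ℝ) {k : ℝ → ℝ} (hk : Continuous k) :
    step a α (step b β k) = step b β (step a α k) := by
  ext t
  change step b β k t - α * (ek a t + Lop a (step b β k) t)
    = step a α k t - β * (ek b t + Lop b (step a α k) t)
  rw [Lop_step a b β hk, Lop_step b a α hk, Lop_ek_comm b a, Lop_comm b a hk]
  unfold step
  ring

end Pool.Agent.Lib.MP_dd244f_an.OtherModes
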