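import Pool.Agent.Lib.MP_dd244f_an.OtherModes.QVals

set_option autoImplicit false

namespace Pool.Agent.Lib.MP_dd244f_an.OtherModes
open MeasureTheory Set Filter Topology

theorem weight_integrable {β : ℝ} (hβ : 0 < β) (T : ℝ) :
    Integrable (fun t : ℝ => (1 + (β * (t - T)) ^ 2)⁻¹) := by
  have h1 : Integrable (fun t : ℝ => (1 + (β * t) ^ 2)⁻¹) :=
    (integrable_inv_one_add_sq).comp_mul_left' hβ.ne'
  exact h1.comp_sub_right T

theorem weight_full {β : ℝ} (hβ : 0 < β) (T : ℝ) :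
    ∫ t in Ioi (0:ℝ), (1 + (β * (t - T)) ^ 2)⁻¹ ≤ Real.pi / β := by
  have h1 : ∫ t in Ioi (0:ℝ), (1 + (β * (t - T)) ^ 2)⁻¹ ≤ ∫ t : ℝ, (1 + (β * (t - T)) ^ 2)⁻¹ := by
    apply setIntegral_le_integral (weight_integrable hβ T)
    filter_upwards with t
    positivity
  refine h1.trans (le_of_eq ?_)
  rw [integral_sub_right_eq_self (fun t : ℝ => (1 + (β * t) ^ 2)⁻¹) T]
  rw [Measure.integral_comp_mul_left (fun t : ℝ => (1 + t ^ 2)⁻¹) β, integral_univ_inv_one_add_sq]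
  rw [abs_of_pos (inv_pos.2 hβ), smul_eq_mul]
  ring

theorem weight_half {β : ℝ} (hβ : 0 < β) :
    ∫ t in Ioi (0:ℝ), (1 + (β * (t - 0)) ^ 2)⁻¹ ≤ (Real.pi / 2) / β := by
  simp only [sub_zero]
  rw [integral_comp_mul_left_Ioi (fun t : ℝ => (1 + t ^ 2)⁻¹) 0 hβ, mul_zero,
    integral_Ioi_inv_one_add_sq]
  simp
  apply le_of_eq
  ring

theorem L1_core {f : ℝ → ℝ} (hf : Continuous f) (hd : Dec f) {T A V P : ℝ}
    (hA : 0 < A) (hV : 0 < V) (hP : 0 < P) (h0 : Q 0 f ≤ A)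
    (h2 : Q 2 f - 2 * T * Q 1 f + T ^ 2 * Q 0 f ≤ V)
    (hw : ∀ β : ℝ, 0 < β → ∫ t in Ioi (0:ℝ), (1 + (β * (t - T)) ^ 2)⁻¹ ≤ P / β) :
    ∫ t in Ioi (0:ℝ), |f t| ≤ Real.sqrt (2 * P * Real.sqrt (A * V)) := by
  set r := Real.sqrt (A * V) with hr
  have hr0 : 0 < r := Real.sqrt_pos.2 (by positivity)
  have hr2 : r ^ 2 = A * V := Real.sq_sqrt (by positivity)
  set S := Real.sqrt (2 * P * r) with hS
  have hS0 : 0 < S := Real.sqrt_pos.2 (by positivity)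
  have hS2 : S ^ 2 = 2 * P * r := Real.sq_sqrt (by positivity)
  set β := r / V with hβ
  have hβ0 : 0 < β := by positivity
  have hβ2 : β ^ 2 = A / V := by
    rw [hβ, div_pow, hr2]; field_simp
  set μ := S / (2 * A) with hμ
  have hμ0 : 0 < μ := by positivity
  -- pointwise bound
  have hpt : ∀ t : ℝ, |f t| ≤ μ / 2 * (f t ^ 2 * (1 + (β * (t - T)) ^ 2)) +
      1 / (2 * μ) * (1 + (β * (t - T)) ^ 2)⁻¹ := by
    intro t
    set w := 1 + (β * (t - T)) ^ 2 with hw'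
    have hw0 : 0 < w := by positivity
    have h3 : 0 ≤ (μ * |f t| * w - 1) ^ 2 / (2 * μ * w) := by positivity
    have h4 : (μ * |f t| * w - 1) ^ 2 / (2 * μ * w)
        = μ / 2 * (f t ^ 2 * w) + 1 / (2 * μ) * w⁻¹ - |f t| := by
      rw [← sq_abs (f t)]
      field_simp
      ring
    linarith
  have i0 := integrable_Q' 0 hf hd
  have i1 := integrable_Q' 1 hf hd
  have i2 := integrable_Q' 2 hf hd
  have iw : IntegrableOn (fun t : ℝ => (1 + (β * (t - T)) ^ 2)⁻¹) (Ioi 0) :=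
    (weight_integrable hβ0 T).integrableOn
  have e1 : ∀ t : ℝ, f t ^ 2 * (1 + (β * (t - T)) ^ 2) = (1 + β ^ 2 * T ^ 2) * (t ^ 0 * f t ^ 2)
      + (-2 * β ^ 2 * T) * (t ^ 1 * f t ^ 2) + β ^ 2 * (t ^ 2 * f t ^ 2) := by
    intro t; ring
  have j0 : IntegrableOn (fun t : ℝ => (1 + β ^ 2 * T ^ 2) * (t ^ 0 * f t ^ 2)) (Ioi 0) :=
    i0.const_mul _
  have j1 : IntegrableOn (fun t : ℝ => (-2 * β ^ 2 * T) * (t ^ 1 * f t ^ 2)) (Ioi 0) :=
    i1.const_mul _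
  have j2 : IntegrableOn (fun t : ℝ => β ^ 2 * (t ^ 2 * f t ^ 2)) (Ioi 0) := i2.const_mul _
  have j01 : IntegrableOn (fun t : ℝ => (1 + β ^ 2 * T ^ 2) * (t ^ 0 * f t ^ 2)
      + (-2 * β ^ 2 * T) * (t ^ 1 * f t ^ 2)) (Ioi 0) := j0.add j1
  have iX : IntegrableOn (fun t : ℝ => f t ^ 2 * (1 + (β * (t - T)) ^ 2)) (Ioi 0) := by
    simp_rw [e1]; exact j01.add j2
  have eX : ∫ t in Ioi (0:ℝ), f t ^ 2 * (1 + (β * (t - T)) ^ 2)
      = Q 0 f + β ^ 2 * (Q 2 f - 2 * T * Q 1 f + T ^ 2 * Q 0 f) := by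
    simp_rw [e1]
    rw [integral_add j01 j2, integral_add j0 j1, integral_const_mul, integral_const_mul,
      integral_const_mul]
    unfold Q
    ring
  have k1 : IntegrableOn (fun t : ℝ => μ / 2 * (f t ^ 2 * (1 + (β * (t - T)) ^ 2))) (Ioi 0) :=
    iX.const_mul _
  have k2 : IntegrableOn (fun t : ℝ => 1 / (2 * μ) * (1 + (β * (t - T)) ^ 2)⁻¹) (Ioi 0) :=
    iw.const_mul _
  have h5 : ∫ t in Ioi (0:ℝ), |f t| ≤ ∫ t in Ioi (0:ℝ), (μ / 2 * (f t ^ 2 *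
      (1 + (β * (t - T)) ^ 2)) + 1 / (2 * μ) * (1 + (β * (t - T)) ^ 2)⁻¹) := by
    apply integral_mono (integrable_Dec hf hd).abs (k1.add k2)
    intro t; exact hpt t
  rw [integral_add k1 k2, integral_const_mul, integral_const_mul, eX] at h5
  have h6 := hw β hβ0
  have h7 : μ / 2 * (Q 0 f + β ^ 2 * (Q 2 f - 2 * T * Q 1 f + T ^ 2 * Q 0 f))
      ≤ μ / 2 * (A + β ^ 2 * V) := by
    gcongr
  have h8 : 1 / (2 * μ) * ∫ t in Ioi (0:ℝ), (1 + (β * (t - T)) ^ 2)⁻¹ ≤ 1 / (2 * μ) * (P / β) := by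
    gcongr
  have h9 : μ / 2 * (A + β ^ 2 * V) + 1 / (2 * μ) * (P / β) = S := by
    rw [hβ2, hμ, hβ]
    have : P * r = S ^ 2 / 2 := by rw [hS2]; ring
    have h10 : V = r ^ 2 / A := by rw [hr2]; field_simp
    rw [h10]
    field_simp
    nlinarith
  linarith

theorem L1_bound {f : ℝ → ℝ} (hf : Continuous f) (hd : Dec f) {T A V : ℝ}
    (hA : 0 < A) (hV : 0 < V) (h0 : Q 0 f ≤ A)
    (h2 : Q 2 f - 2 * T * Q 1 f + T ^ 2 * Q 0 f ≤ V) :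
    ∫ t in Ioi (0:ℝ), |f t| ≤ Real.sqrt (2 * Real.pi * Real.sqrt (A * V)) :=
  L1_core hf hd hA hV Real.pi_pos h0 h2 fun _ hβ => weight_full hβ T

theorem L1_bound_half {f : ℝ → ℝ} (hf : Continuous f) (hd : Dec f) {A V : ℝ}
    (hA : 0 < A) (hV : 0 < V) (h0 : Q 0 f ≤ A) (h2 : Q 2 f ≤ V) :
    ∫ t in Ioi (0:ℝ), |f t| ≤ Real.sqrt (Real.pi * Real.sqrt (A * V)) := by
  have h := L1_core hf hd (T := 0) hA hV (by positivity : 0 < Real.pi / 2) h0 (by simpa using h2)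
    fun _ hβ => weight_half hβ
  have e : 2 * (Real.pi / 2) = Real.pi := by ring
  rwa [e] at h

end Pool.Agent.Lib.MP_dd244f_an.OtherModes
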