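import Pool.Agent.Lib.MP_dd244f_an.OtherModes.Num

set_option autoImplicit false

namespace Pool.Agent.Lib.MP_dd244f_an.OtherModes
open MeasureTheory Set Filter Topology

/-- convolution-type operator on the line with kernel `k` on the positive half line -/
noncomputable def Kc (k : ℝ → ℝ) (φ : ℝ → ℂ) (x : ℝ) : ℂ :=
  ∫ t in Ioi (0:ℝ), (k t : ℂ) * φ (x + t)

/-- `δ + k` acting on functions on the line -/
noncomputable def Aop (k : ℝ → ℝ) (φ : ℝ → ℂ) (x : ℝ) : ℂ := φ x + Kc k φ x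

theorem Kc_integrable {k : ℝ → ℝ} (hk : Continuous k) {φ : ℝ → ℂ} (hφ : Continuous φ) {b : ℝ}
    (hb : ∀ x, b ≤ x → φ x = 0) (x : ℝ) :
    IntegrableOn (fun t => (k t : ℂ) * φ (x + t)) (Ioi 0) := by
  have hc : Continuous fun t => (k t : ℂ) * φ (x + t) := by fun_prop
  have h1 : IntegrableOn (fun t => (k t : ℂ) * φ (x + t)) (Icc 0 (|b - x| + 1)) :=
    hc.continuousOn.integrableOn_Icc
  refine h1.of_forall_sdiff_eq_zero measurableSet_Ioi ?_
  rintro t ⟨ht, ht'⟩
  rw [mem_Ioi] at ht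
  rw [mem_Icc, not_and_or, not_le, not_le] at ht'
  rcases ht' with h | h
  · linarith
  · rw [hb _ (by linarith [le_abs_self (b - x)]), mul_zero]

theorem Kc_eq_interval {k : ℝ → ℝ} {φ : ℝ → ℂ} {b : ℝ}
    (hb : ∀ x, b ≤ x → φ x = 0) {x B : ℝ} (hB : 0 ≤ B) (hB' : b - x ≤ B) :
    Kc k φ x = ∫ t in (0:ℝ)..B, (k t : ℂ) * φ (x + t) := by
  unfold Kc
  rw [intervalIntegral.integral_of_le hB]
  apply setIntegral_eq_of_subset_of_forall_sdiff_eq_zero measurableSet_Ioi
    (Ioc_subset_Ioi_self)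
  rintro t ⟨ht, ht'⟩
  rw [mem_Ioi] at ht
  rw [mem_Ioc, not_and_or, not_lt, not_le] at ht'
  rcases ht' with h | h
  · linarith
  · rw [hb _ (by linarith), mul_zero]

theorem Kc_vanish {k : ℝ → ℝ} {φ : ℝ → ℂ} {b : ℝ}
    (hb : ∀ x, b ≤ x → φ x = 0) {x : ℝ} (hx : b ≤ x) : Kc k φ x = 0 := by
  rw [Kc_eq_interval hb le_rfl (by linarith)]
  simp

theorem Kc_continuous {k : ℝ → ℝ} (hk : Continuous k) {φ : ℝ → ℂ} (hφ : Continuous φ) {b : ℝ}
    (hb : ∀ x, b ≤ x → φ x = 0) : Continuous (Kc k φ) := by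
  rw [continuous_iff_continuousAt]
  intro x0
  have h1 : Kc k φ =ᶠ[𝓝 x0] fun x => ∫ t in (0:ℝ)..(|b - x0| + 1), (k t : ℂ) * φ (x + t) := by
    filter_upwards [lt_mem_nhds (show x0 - 1 < x0 by linarith)] with x hx
    exact Kc_eq_interval hb (by positivity) (by linarith [le_abs_self (b - x0)])
  have h2 : Continuous fun x => ∫ t in (0:ℝ)..(|b - x0| + 1), (k t : ℂ) * φ (x + t) := by
    apply intervalIntegral.continuous_parametric_intervalIntegral_of_continuous'
    fun_prop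
  exact h2.continuousAt.congr h1.symm

theorem Kc_add {k : ℝ → ℝ} (hk : Continuous k) {φ ψ : ℝ → ℂ} (hφ : Continuous φ)
    (hψ : Continuous ψ) {b : ℝ} (hb : ∀ x, b ≤ x → φ x = 0) (hb' : ∀ x, b ≤ x → ψ x = 0) (x : ℝ) :
    Kc k (fun x => φ x + ψ x) x = Kc k φ x + Kc k ψ x := by
  unfold Kc
  rw [← integral_add (Kc_integrable hk hφ hb x) (Kc_integrable hk hψ hb' x)]
  congr 1
  ext t
  ring

theorem Kc_lin {k l : ℝ → ℝ} (hk : Continuous k) (hl : Continuous l) (c d : ℝ) {φ : ℝ → ℂ}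
    (hφ : Continuous φ) {b : ℝ} (hb : ∀ x, b ≤ x → φ x = 0) (x : ℝ) :
    Kc (fun t => c * k t + d * l t) φ x = c * Kc k φ x + d * Kc l φ x := by
  unfold Kc
  rw [← integral_const_mul, ← integral_const_mul, ← integral_add
    ((Kc_integrable hk hφ hb x).const_mul _) ((Kc_integrable hl hφ hb x).const_mul _)]
  congr 1
  ext t
  push_cast
  ring

/-- the resolvent in closed form -/
theorem Kc_ek_eq (a : ℝ) {φ : ℝ → ℂ} {b : ℝ}
    (hb : ∀ x, b ≤ x → φ x = 0) (x : ℝ) :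
    Kc (ek a) φ x = -((Real.exp (a * x) : ℂ) * ∫ s in b..x, (Real.exp (-a * s) : ℂ) * φ s) := by
  rcases le_total b x with h | h
  · rw [Kc_vanish hb h]
    have : ∫ s in b..x, (Real.exp (-a * s) : ℂ) * φ s = 0 := by
      rw [intervalIntegral.integral_of_le h]
      rw [setIntegral_eq_zero_of_forall_eq_zero]
      intro s hs
      rw [hb s hs.1.le, mul_zero]
    rw [this]; simp
  · rw [Kc_eq_interval hb (B := b - x) (by linarith) le_rfl, intervalIntegral.integral_symm x b]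
    have := intervalIntegral.integral_comp_add_left (a := 0) (b := b - x)
      (fun s => (Real.exp (a * x) : ℂ) * ((Real.exp (-a * s) : ℂ) * φ s)) x
    rw [show x + 0 = x by ring, show x + (b - x) = b by ring] at this
    rw [mul_neg, neg_neg, ← intervalIntegral.integral_const_mul (Real.exp (a * x) : ℂ), ← this]
    apply intervalIntegral.integral_congr
    intro t _
    simp only [ek]
    rw [← mul_assoc, ← Complex.ofReal_mul, ← Real.exp_add]
    congr 3
    ring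

theorem Kc_ek_hasDerivAt (a : ℝ) {φ : ℝ → ℂ} (hφ : Continuous φ) {b : ℝ}
    (hb : ∀ x, b ≤ x → φ x = 0) (x : ℝ) :
    HasDerivAt (Kc (ek a) φ) (a * Kc (ek a) φ x - φ x) x := by
  have e : Kc (ek a) φ = fun x =>
      -((Real.exp (a * x) : ℂ) * ∫ s in b..x, (Real.exp (-a * s) : ℂ) * φ s) := by
    ext x; exact Kc_ek_eq a hb x
  have hc : Continuous fun s => (Real.exp (-a * s) : ℂ) * φ s := by fun_prop
  have h1 := (hc.integral_hasStrictDerivAt b x).hasDerivAt
  have h2 : HasDerivAt (fun x : ℝ => (Real.exp (a * x) : ℂ)) ((Real.exp (a * x) * a : ℝ) : ℂ) x := by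
    have h3 : HasDerivAt (fun x : ℝ => Real.exp (a * x)) (Real.exp (a * x) * a) x := by
      have := ((hasDerivAt_id x).const_mul a).exp
      simpa using this
    exact h3.ofReal_comp
  have h4 := (h2.mul h1).neg
  rw [e]
  refine HasDerivAt.congr_deriv h4 ?_
  have h5 : (Real.exp (a * x) : ℂ) * (Real.exp (-a * x) : ℂ) = 1 := by
    rw [← Complex.ofReal_mul, ← Real.exp_add]; simp
  push_cast
  push_cast at h5
  linear_combination (-φ x) * h5

theorem ode_unique {a : ℝ} {φ ψ : ℝ → ℂ} (hφ : Continuous φ) {b : ℝ}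
    (hb : ∀ x, b ≤ x → φ x = 0) (hψ : ∀ x, HasDerivAt ψ (a * ψ x - φ x) x)
    (hb' : ∀ x, b ≤ x → ψ x = 0) (x : ℝ) : ψ x = Kc (ek a) φ x := by
  have h1 : ∀ x, HasDerivAt (fun x => (Real.exp (-a * x) : ℂ) * (ψ x - Kc (ek a) φ x)) 0 x := by
    intro x
    have h2 : HasDerivAt (fun x : ℝ => (Real.exp (-a * x) : ℂ))
        ((Real.exp (-a * x) * (-a) : ℝ) : ℂ) x := by
      have h3 : HasDerivAt (fun x : ℝ => Real.exp (-a * x)) (Real.exp (-a * x) * (-a)) x := by
        have := ((hasDerivAt_id x).const_mul (-a)).exp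
        simpa using this
      exact h3.ofReal_comp
    have h3 := h2.mul ((hψ x).sub (Kc_ek_hasDerivAt a hφ hb x))
    refine HasDerivAt.congr_deriv h3 ?_
    simp only [Pi.sub_apply]
    push_cast
    ring
  have h2 := is_const_of_deriv_eq_zero (fun x => (h1 x).differentiableAt)
    (fun x => (h1 x).deriv) x b
  rw [hb' b le_rfl, Kc_vanish hb le_rfl, sub_zero, mul_zero] at h2
  have h3 : (Real.exp (-a * x) : ℂ) ≠ 0 := by exact_mod_cast (Real.exp_pos _).ne'
  have h4 := (mul_eq_zero.1 h2).resolve_left h3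
  exact sub_eq_zero.1 h4

/-- integration by parts -/
theorem Kc_Lop_eq (a : ℝ) {k : ℝ → ℝ} (hk : Continuous k) {φ : ℝ → ℂ} (hφ : Continuous φ) {b : ℝ}
    (hb : ∀ x, b ≤ x → φ x = 0) (x : ℝ) :
    Kc (Lop a k) φ x = Kc k (Kc (ek a) φ) x := by
  have hψc := Kc_continuous (ek_continuous a) hφ hb
  have hψb : ∀ x, b ≤ x → Kc (ek a) φ x = 0 := fun x hx => Kc_vanish hb hx
  set B := |b - x| with hB
  have hB0 : 0 ≤ B := abs_nonneg _
  have hBx : b - x ≤ B := le_abs_self _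
  rw [Kc_eq_interval hb hB0 hBx, Kc_eq_interval hψb hB0 hBx]
  have h1 : ∀ s ∈ uIcc (0:ℝ) B, HasDerivAt (fun s => (Lop a k s : ℂ) * Kc (ek a) φ (x + s))
      ((k s : ℂ) * Kc (ek a) φ (x + s) - (Lop a k s : ℂ) * φ (x + s)) s := by
    intro s _
    have h2 := (Lop_hasDerivAt a hk s).ofReal_comp
    have h3 : HasDerivAt (fun s => Kc (ek a) φ (x + s))
        (a * Kc (ek a) φ (x + s) - φ (x + s)) s := by
      have := (Kc_ek_hasDerivAt a hφ hb (x + s)).comp_const_add x s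
      exact this
    refine HasDerivAt.congr_deriv (h2.mul h3) ?_
    push_cast
    ring
  have hLc := Lop_continuous a hk
  have h4 := intervalIntegral.integral_eq_sub_of_hasDerivAt h1
    (by apply Continuous.intervalIntegrable; fun_prop)
  rw [hψb (x + B) (by linarith), Lop_zero] at h4
  rw [intervalIntegral.integral_sub (by apply Continuous.intervalIntegrable; fun_prop)
    (by apply Continuous.intervalIntegrable; fun_prop)] at h4
  simp only [mul_zero, Complex.ofReal_zero, zero_mul, sub_zero] at h4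
  rw [sub_eq_zero] at h4
  exact h4.symm

theorem Kc_hasDerivAt {k : ℝ → ℝ} (hk : Continuous k) {ψ ψ' : ℝ → ℂ}
    (hψ : ∀ x, HasDerivAt ψ (ψ' x) x) (hψ' : Continuous ψ') {b : ℝ}
    (hb : ∀ x, b ≤ x → ψ x = 0) (hb' : ∀ x, b ≤ x → ψ' x = 0) (x0 : ℝ) :
    HasDerivAt (Kc k ψ) (Kc k ψ' x0) x0 := by
  have hψc : Continuous ψ := by
    rw [continuous_iff_continuousAt]
    exact fun x => (hψ x).continuousAt
  set B := |b - x0| + 1 with hB
  have hB0 : 0 ≤ B := by positivity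
  have hB1 : b - x0 + 1 ≤ B := by linarith [le_abs_self (b - x0)]
  have h1 : Kc k ψ =ᶠ[𝓝 x0] fun x => ∫ t in (0:ℝ)..B, (k t : ℂ) * ψ (x + t) := by
    filter_upwards [lt_mem_nhds (show x0 - 1 < x0 by linarith)] with x hx
    exact Kc_eq_interval hb hB0 (by linarith)
  rw [Kc_eq_interval (k := k) hb' hB0 (by linarith)]
  refine HasDerivAt.congr_of_eventuallyEq ?_ h1
  -- a bound for the derivative
  obtain ⟨C, hC⟩ : ∃ C, ∀ y ∈ Icc (x0 - 1) (x0 + 1) ×ˢ Icc (0:ℝ) B,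
      ‖(k y.2 : ℂ) * ψ' (y.1 + y.2)‖ ≤ C := by
    have hcpt : IsCompact (Icc (x0 - 1) (x0 + 1) ×ˢ Icc (0:ℝ) B) := isCompact_Icc.prod isCompact_Icc
    apply hcpt.exists_bound_of_continuousOn
    apply Continuous.continuousOn
    fun_prop
  refine (intervalIntegral.hasDerivAt_integral_of_dominated_loc_of_deriv_le
    (F := fun x t => (k t : ℂ) * ψ (x + t)) (F' := fun x t => (k t : ℂ) * ψ' (x + t))
    (bound := fun _ => C) (s := Icc (x0 - 1) (x0 + 1)) ?_ ?_ ?_ ?_ ?_ ?_ ?_).2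
  · exact Icc_mem_nhds (by linarith) (by linarith)
  · filter_upwards with x
    exact (by fun_prop : Continuous fun t => (k t : ℂ) * ψ (x + t)).aestronglyMeasurable
  · apply Continuous.intervalIntegrable; fun_prop
  · exact (by fun_prop : Continuous fun t => (k t : ℂ) * ψ' (x0 + t)).aestronglyMeasurable
  · filter_upwards with t ht x hx
    rw [uIoc_of_le hB0] at ht
    exact hC (x, t) ⟨hx, ht.1.le, ht.2⟩
  · exact intervalIntegrable_const
  · filter_upwards with t _ x _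
    have := (hψ (x + t)).comp_add_const x t
    exact this.const_mul _

/-- composition with the resolvent -/
theorem Kc_ek_Kc (a : ℝ) {k : ℝ → ℝ} (hk : Continuous k) {φ : ℝ → ℂ} (hφ : Continuous φ) {b : ℝ}
    (hb : ∀ x, b ≤ x → φ x = 0) (x : ℝ) :
    Kc (ek a) (Kc k φ) x = Kc (Lop a k) φ x := by
  symm
  have hψc := Kc_continuous (ek_continuous a) hφ hb
  have hψb : ∀ x, b ≤ x → Kc (ek a) φ x = 0 := fun x hx => Kc_vanish hb hx
  apply ode_unique (Kc_continuous hk hφ hb) (fun x hx => Kc_vanish hb hx) ?_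
    (fun x hx => Kc_vanish hb hx)
  intro x
  have e : Kc (Lop a k) φ = Kc k (Kc (ek a) φ) := by
    ext x; exact Kc_Lop_eq a hk hφ hb x
  rw [e]
  have h1 := Kc_hasDerivAt hk (fun x => Kc_ek_hasDerivAt a hφ hb x) (by fun_prop) hψb
    (fun x hx => by rw [hψb x hx, hb x hx]; ring) x
  refine HasDerivAt.congr_deriv h1 ?_
  have h2 : (a : ℂ) * Kc k (Kc (ek a) φ) x
      = ∫ t in Ioi (0:ℝ), (a : ℂ) * ((k t : ℂ) * Kc (ek a) φ (x + t)) := by
    rw [integral_const_mul]; rfl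
  rw [h2]
  change (∫ t in Ioi (0:ℝ), (k t : ℂ) * (a * Kc (ek a) φ (x + t) - φ (x + t))) =
    _ - ∫ t in Ioi (0:ℝ), (k t : ℂ) * φ (x + t)
  rw [← integral_sub ((Kc_integrable hk hψc hψb x).const_mul _)
    (Kc_integrable hk hφ hb x)]
  congr 1
  ext t
  ring

/-- the step operator -/
noncomputable def Sop (a : ℝ) (φ : ℝ → ℂ) (x : ℝ) : ℂ :=
  φ x - ((2 * a + 2 : ℝ) : ℂ) * Kc (ek a) φ x

theorem Aop_succ (lam : ℝ) (N : ℕ) {φ : ℝ → ℂ} (hφ : Continuous φ) {b : ℝ}
    (hb : ∀ x, b ≤ x → φ x = 0) (x : ℝ) :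
    Aop (KK lam (N + 1)) φ x = Sop lam (Aop (KK (lam + 2) N) φ) x := by
  have hk := KK_continuous N (lam + 2)
  have h1 : Kc (KK lam (N + 1)) φ x = Kc (KK (lam + 2) N) φ x
      - ((2 * lam + 2 : ℝ) : ℂ) * (Kc (ek lam) φ x + Kc (Lop lam (KK (lam + 2) N)) φ x) := by
    have e : KK lam (N + 1) = fun t => 1 * KK (lam + 2) N t + (-(2 * lam + 2)) *
        (1 * ek lam t + 1 * Lop lam (KK (lam + 2) N) t) := by
      ext t; simp only [KK, step]; ring
    rw [e, Kc_lin hk (by have := Lop_continuous lam hk; have := ek_continuous lam; fun_prop) _ _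
      hφ hb, Kc_lin (ek_continuous lam) (Lop_continuous lam hk) _ _ hφ hb]
    push_cast
    ring
  have h2 : Kc (ek lam) (Aop (KK (lam + 2) N) φ) x
      = Kc (ek lam) φ x + Kc (Lop lam (KK (lam + 2) N)) φ x := by
    rw [← Kc_ek_Kc lam hk hφ hb]
    exact Kc_add (ek_continuous lam) hφ (Kc_continuous hk hφ hb) hb
      (fun x hx => Kc_vanish hb hx) x
  unfold Sop
  rw [h2]
  unfold Aop
  rw [h1]
  ring

theorem Aop_zero (lam : ℝ) (φ : ℝ → ℂ) : Aop (KK lam 0) φ = φ := by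
  ext x
  simp [Aop, Kc, KK]

end Pool.Agent.Lib.MP_dd244f_an.OtherModes
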