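import Pool.Agent.Lib.MP_dd244f_an.OtherModes.VBound

set_option autoImplicit false

namespace Pool.Agent.Lib.MP_dd244f_an.OtherModes
open MeasureTheory Set Filter Topology

theorem L1_H {lam : ℝ} (hl : 1 ≤ lam) (n : ℕ) :
    (lam + (n + 1)) * ∫ t in Ioi (0:ℝ), |BB (ek lam) (lam + 2) n t| ≤
      ((n:ℝ) + 2) * Real.sqrt (2 * Real.pi * Real.sqrt (Wc n / 2)) := by
  have hl0 : 0 < lam := by linarith
  have hn0 : (0:ℝ) ≤ n := Nat.cast_nonneg n
  have hW : 0 < Wc n := by
    unfold Wc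
    split_ifs <;> norm_num
  set f := BB (ek lam) (lam + 2) n with hf
  set L := lam + ((n:ℝ) + 1) with hL
  have hL0 : 0 < L := by positivity
  have hc : Continuous f := BB_continuous (ek_continuous lam) n _
  have hd : Dec f := BB_Dec (ek_continuous lam) (Dec_ek hl) n _ (by linarith)
  have h0 : Q 0 f = 1 / (2 * lam) := by
    rw [hf, Q0_BB (ek_continuous lam) (Dec_ek hl) n _ (by linarith), Q0_ek hl0]
  have hVV : VV lam (lam + 2) n ≤ lam * (((n:ℝ) + 2) ^ 4 * Wc n) / L ^ 4 := by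
    have h := VV_bound hl n
    rw [← hL] at h
    rw [le_div_iff₀ (by positivity)]
    have e : L ^ 4 / lam * VV lam (lam + 2) n = (VV lam (lam + 2) n * L ^ 4) / lam := by ring
    rw [e, div_le_iff₀ hl0] at h
    linarith
  have h2 : Q 2 f - 2 * (2 * lam * Q 1 f) * Q 1 f + (2 * lam * Q 1 f) ^ 2 * Q 0 f
      ≤ lam * (((n:ℝ) + 2) ^ 4 * Wc n) / L ^ 4 := by
    refine le_trans (le_of_eq ?_) hVV
    rw [h0]
    unfold VV
    rw [← hf]
    field_simp
    ring
  have h := L1_bound hc hd (T := 2 * lam * Q 1 f) (A := 1 / (2 * lam))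
    (V := lam * (((n:ℝ) + 2) ^ 4 * Wc n) / L ^ 4) (by positivity) (by positivity) h0.le h2
  have e1 : 1 / (2 * lam) * (lam * (((n:ℝ) + 2) ^ 4 * Wc n) / L ^ 4)
      = ((((n:ℝ) + 2) / L) ^ 2) ^ 2 * (Wc n / 2) := by
    field_simp
  have e2 : Real.sqrt (1 / (2 * lam) * (lam * (((n:ℝ) + 2) ^ 4 * Wc n) / L ^ 4))
      = (((n:ℝ) + 2) / L) ^ 2 * Real.sqrt (Wc n / 2) := by
    rw [e1, Real.sqrt_mul (by positivity), Real.sqrt_sq (by positivity)]
  have e3 : 2 * Real.pi * ((((n:ℝ) + 2) / L) ^ 2 * Real.sqrt (Wc n / 2))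
      = (((n:ℝ) + 2) / L) ^ 2 * (2 * Real.pi * Real.sqrt (Wc n / 2)) := by ring
  rw [e2, e3, Real.sqrt_mul (by positivity), Real.sqrt_sq (by positivity)] at h
  calc L * ∫ t in Ioi (0:ℝ), |f t|
      ≤ L * (((n:ℝ) + 2) / L * Real.sqrt (2 * Real.pi * Real.sqrt (Wc n / 2))) := by gcongr
    _ = _ := by field_simp

/-- `L^1` norm of the kernel of `T^(n+1)` on the mode `lam + 2 (n+1)` -/
theorem L1_KK {lam : ℝ} (hl : 1 ≤ lam) (n : ℕ) :
    IntegrableOn (KK lam (n + 1)) (Ioi 0) ∧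
    ∫ t in Ioi (0:ℝ), |KK lam (n + 1) t| ≤ Real.sqrt Real.pi * (if n = 0 then 0 else (n:ℝ) + 1) +
      2 * (((n:ℝ) + 2) * Real.sqrt (2 * Real.pi * Real.sqrt (Wc n / 2))) := by
  have hl0 : 0 < lam := by linarith
  have hn0 : (0:ℝ) ≤ n := Nat.cast_nonneg n
  have e : KK lam (n + 1) = fun t => UU (lam + 2) n t -
      (2 * (lam + (n + 1))) * BB (ek lam) (lam + 2) n t := by
    ext t
    rw [KK_eq]
    change UU (lam + 2) n t - _ * (ek lam t + Lop lam (UU (lam + 2) n) t) = _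
    rw [ek_add_Lop_UU]
    ring
  have i1 : IntegrableOn (UU (lam + 2) n) (Ioi 0) :=
    integrable_Dec (UU_continuous n _) (UU_Dec n _ (by linarith))
  have i2 : IntegrableOn (BB (ek lam) (lam + 2) n) (Ioi 0) :=
    integrable_Dec (BB_continuous (ek_continuous lam) n _)
      (BB_Dec (ek_continuous lam) (Dec_ek hl) n _ (by linarith))
  have i3 : IntegrableOn (fun t => (2 * (lam + (n + 1))) * BB (ek lam) (lam + 2) n t) (Ioi 0) :=
    i2.const_mul _
  have hint : IntegrableOn (KK lam (n + 1)) (Ioi 0) := by rw [e]; exact i1.sub i3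
  refine ⟨hint, ?_⟩
  have h1 : ∫ t in Ioi (0:ℝ), |KK lam (n + 1) t| ≤ ∫ t in Ioi (0:ℝ), (|UU (lam + 2) n t| +
      (2 * (lam + (n + 1))) * |BB (ek lam) (lam + 2) n t|) := by
    apply integral_mono hint.abs (i1.abs.add (i2.abs.const_mul _))
    intro t
    simp only [e]
    refine (abs_sub _ _).trans (le_of_eq ?_)
    rw [abs_mul, abs_of_pos (by positivity : 0 < 2 * (lam + ((n:ℝ) + 1)))]
    rfl
  have i2a : IntegrableOn (fun t => (2 * (lam + ((n:ℝ) + 1))) * |BB (ek lam) (lam + 2) n t|)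
    (Ioi 0) := i2.abs.const_mul _
  rw [integral_add i1.abs i2a, integral_const_mul] at h1
  have h2 := L1_UU n hl0.le
  have h3 := L1_H hl n
  nlinarith

/-! ### the dual kernel -/

theorem exp_mul_Lop (a : ℝ) (k : ℝ → ℝ) (t : ℝ) :
    Real.exp (-2 * t) * Lop a k t = Lop (a + 2) (fun s => Real.exp (-2 * s) * k s) t := by
  unfold Lop
  rw [← mul_assoc, ← Real.exp_add]
  have e1 : -2 * t + -a * t = -(a + 2) * t := by ring
  rw [e1]
  congr 1
  apply intervalIntegral.integral_congr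
  intro s _
  simp only
  rw [← mul_assoc, ← Real.exp_add]
  congr 2
  ring

theorem exp_mul_step (a β : ℝ) (k : ℝ → ℝ) (t : ℝ) :
    Real.exp (-2 * t) * step a β k t = step (a + 2) β (fun s => Real.exp (-2 * s) * k s) t := by
  unfold step
  rw [← exp_mul_Lop]
  have e1 : ek (a + 2) t = Real.exp (-2 * t) * ek a t := by
    unfold ek; rw [← Real.exp_add]; congr 1; ring
  rw [e1]
  ring

theorem KT_eq (N : ℕ) : ∀ lam : ℝ, (fun t => Real.exp (-2 * t) * KK lam (N + 1) t)
    = step (lam + 2 * N + 2) (2 * lam + 2 * N + 2) (UU (lam + 2) N) := by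
  induction N with
  | zero =>
    intro lam
    ext t
    have h1 : KK lam (0 + 1) = step lam (2 * lam + 2) (KK (lam + 2) 0) := rfl
    rw [h1, exp_mul_step]
    simp [KK, UU]
  | succ N ih =>
    intro lam
    ext t
    have h1 : KK lam (N + 1 + 1) = step lam (2 * lam + 2) (KK (lam + 2) (N + 1)) := rfl
    rw [h1, exp_mul_step, ih (lam + 2)]
    have e1 : 2 * lam + 2 = (lam + 2) + lam := by ring
    have e2 : 2 * (lam + 2) + 2 * (N:ℝ) + 2 = (lam + 2 + 2 * N + 2) + (lam + 2) := by ring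
    have hN : (0:ℝ) ≤ N := Nat.cast_nonneg N
    rw [e1, e2, step_regroup (by linarith) _ _ (UU_continuous N _),
      step_comm _ _ _ _ (UU_continuous N _)]
    have e3 : (lam + 2) + (lam + 2) = 2 * (lam + 2) := by ring
    have e4 : lam + 2 + 2 * (N:ℝ) + 2 + lam = 2 * lam + 2 * ((N + 1 : ℕ) : ℝ) + 2 := by
      push_cast; ring
    have e5 : lam + 2 + 2 * (N:ℝ) + 2 = lam + 2 * ((N + 1 : ℕ) : ℝ) + 2 := by
      push_cast; ring
    rw [e3, e4, e5]
    rfl

theorem L1_Lop {a : ℝ} (ha : 1 ≤ a) {f : ℝ → ℝ} (hf : Continuous f) (hd : Dec f) :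
    ∫ t in Ioi (0:ℝ), |Lop a f t| ≤ (1 / a) * ∫ t in Ioi (0:ℝ), |f t| := by
  have ha0 : 0 < a := by linarith
  have hfc : Continuous fun t => |f t| := hf.abs
  have hfd : Dec fun t => |f t| := by
    obtain ⟨C, hC, h⟩ := hd
    exact ⟨C, hC, fun t ht => by rw [abs_abs]; exact h t ht⟩
  set v := Lop a (fun t => |f t|) with hv
  have hvc : Continuous v := Lop_continuous a hfc
  have hvd : Dec v := Dec_Lop ha hfc hfd
  have i1 := integrable_Dec hfc hfd
  have i2 := integrable_Dec hvc hvd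
  have i2a : IntegrableOn (fun t => a * v t) (Ioi 0) := i2.const_mul _
  have hlim : Tendsto v atTop (𝓝 0) := by
    obtain ⟨C, hC, h⟩ := hvd
    have h1 : Tendsto (fun t : ℝ => C * Real.exp (-t / 2)) atTop (𝓝 (C * 0)) := by
      apply Tendsto.const_mul
      apply Real.tendsto_exp_atBot.comp
      have : (fun t : ℝ => -t / 2) = fun t : ℝ => (-1 / 2) * t := by ext t; ring
      rw [this]
      exact Filter.Tendsto.const_mul_atTop_of_neg (by norm_num) tendsto_id
    rw [mul_zero] at h1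
    apply squeeze_zero_norm' _ h1
    filter_upwards [eventually_ge_atTop 0] with t ht
    exact h t ht
  have h4 := integral_Ioi_of_hasDerivAt_of_tendsto (f := v) (a := 0) (m := 0)
    (f' := fun t => |f t| - a * v t) hvc.continuousAt.continuousWithinAt
    (fun t _ => Lop_hasDerivAt a hfc t) (i1.sub i2a) hlim
  rw [integral_sub i1 i2a, integral_const_mul] at h4
  have h5 : v 0 = 0 := Lop_zero a _
  rw [h5] at h4
  have h6 : ∫ t in Ioi (0:ℝ), |Lop a f t| ≤ ∫ t in Ioi (0:ℝ), v t := by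
    apply setIntegral_mono_on (integrable_Dec (Lop_continuous a hf) (Dec_Lop ha hf hd)).abs i2
      measurableSet_Ioi
    intro t ht
    rw [hv]
    unfold Lop
    rw [abs_mul, abs_of_pos (Real.exp_pos _)]
    gcongr
    refine (intervalIntegral.abs_integral_le_integral_abs (le_of_lt ht)).trans (le_of_eq ?_)
    apply intervalIntegral.integral_congr
    intro s _
    simp only
    rw [abs_mul, abs_of_pos (Real.exp_pos _)]
  refine h6.trans (le_of_eq ?_)
  field_simp
  linarith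

theorem L1_KT {lam : ℝ} (hl : 0 ≤ lam) (n : ℕ) :
    IntegrableOn (fun t => Real.exp (-2 * t) * KK lam (n + 1) t) (Ioi 0) ∧
    ∫ t in Ioi (0:ℝ), |Real.exp (-2 * t) * KK lam (n + 1) t| ≤
      2 + 3 * (Real.sqrt Real.pi * (if n = 0 then 0 else (n:ℝ) + 1)) := by
  have hn0 : (0:ℝ) ≤ n := Nat.cast_nonneg n
  set m := lam + 2 * (n:ℝ) + 2 with hm
  set u := UU (lam + 2) n with hu
  have hm1 : 1 ≤ m := by linarith
  have huc : Continuous u := UU_continuous n _
  have hud : Dec u := UU_Dec n _ (by linarith)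
  have e := KT_eq n lam
  rw [← hm, ← hu] at e
  rw [e]
  have i1 := integrable_Dec huc hud
  have i2 := integrable_Dec (ek_continuous m) (Dec_ek hm1)
  have i3 := integrable_Dec (Lop_continuous m huc) (Dec_Lop hm1 huc hud)
  have hint : IntegrableOn (step m (2 * lam + 2 * n + 2) u) (Ioi 0) :=
    integrable_Dec (step_continuous _ _ huc) (Dec_step _ hm1 huc hud)
  refine ⟨hint, ?_⟩
  have e2 : ∀ t, |Real.exp (-2 * t) * KK lam (n + 1) t| = |step m (2 * lam + 2 * n + 2) u t| :=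
    fun t => by rw [← e]
  simp_rw [e2]
  have hc0 : 0 ≤ 2 * lam + 2 * (n:ℝ) + 2 := by linarith
  have h1 : ∫ t in Ioi (0:ℝ), |step m (2 * lam + 2 * n + 2) u t| ≤ ∫ t in Ioi (0:ℝ), (|u t| +
      (2 * lam + 2 * n + 2) * (|ek m t| + |Lop m u t|)) := by
    apply integral_mono hint.abs (i1.abs.add ((i2.abs.add i3.abs).const_mul _))
    intro t
    simp only [step]
    refine (abs_sub _ _).trans ?_
    rw [abs_mul, abs_of_nonneg hc0]
    have h0 : |ek m t + Lop m u t| ≤ |ek m t| + |Lop m u t| := abs_add_le (ek m t) (Lop m u t)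
    exact add_le_add le_rfl (mul_le_mul_of_nonneg_left h0 hc0)
  have i23 : IntegrableOn (fun t => |ek m t| + |Lop m u t|) (Ioi 0) := i2.abs.add i3.abs
  have i23a : IntegrableOn (fun t => (2 * lam + 2 * (n:ℝ) + 2) * (|ek m t| + |Lop m u t|))
    (Ioi 0) := i23.const_mul _
  rw [integral_add i1.abs i23a, integral_const_mul, integral_add i2.abs i3.abs] at h1
  have h2 := L1_UU n hl
  rw [← hu] at h2
  have h3 := L1_Lop hm1 huc hud
  have h4 : ∫ t in Ioi (0:ℝ), |ek m t| = 1 / m := by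
    have h5 := int_pow_exp 0 (b := m) (by linarith)
    simp only [pow_zero, one_mul, Nat.factorial, Nat.cast_one, zero_add, pow_one] at h5
    rw [← h5]
    apply setIntegral_congr_fun measurableSet_Ioi
    intro t _
    simp only [ek]
    rw [abs_of_pos (Real.exp_pos _)]
  rw [h4] at h1
  set X := ∫ t in Ioi (0:ℝ), |u t|
  have hX0 : 0 ≤ X := integral_nonneg fun t => abs_nonneg _
  have hm0 : 0 < m := by linarith
  have h6 : (2 * lam + 2 * (n:ℝ) + 2) * (1 / m + ∫ t in Ioi (0:ℝ), |Lop m u t|) ≤ 2 * (1 + X) := by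
    calc (2 * lam + 2 * (n:ℝ) + 2) * (1 / m + ∫ t in Ioi (0:ℝ), |Lop m u t|)
        ≤ (2 * m) * (1 / m + (1 / m) * X) := by
          gcongr
          linarith
      _ = 2 * (1 + X) := by field_simp
  linarith

end Pool.Agent.Lib.MP_dd244f_an.OtherModes
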