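import Pool.Agent.Lib.MP_dd244f_an.OtherModes.Norms

set_option autoImplicit false

namespace Pool.Agent.Lib.MP_dd244f_an.OtherModes
open MeasureTheory Set Filter Topology

/-- the constant `exp (2 ∑_{j<n} 1/(2j+1))` -/
noncomputable def EE (n : ℕ) : ℝ := Real.exp (2 * ∑ j ∈ Finset.range n, 1 / (2 * (j:ℝ) + 1))

theorem EE_pos (n : ℕ) : 0 < EE n := Real.exp_pos _

theorem EE_mono {m n : ℕ} (h : m ≤ n) : EE m ≤ EE n := by
  unfold EE
  apply Real.exp_le_exp.2
  apply mul_le_mul_of_nonneg_left _ (by norm_num)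
  apply Finset.sum_le_sum_of_subset_of_nonneg (Finset.range_subset_range.2 h)
  intro i _ _
  positivity

theorem EE_succ (n : ℕ) : EE (n + 1) = EE n * Real.exp (2 / (2 * (n:ℝ) + 1)) := by
  unfold EE
  rw [Finset.sum_range_succ, mul_add, Real.exp_add]
  congr 2
  ring

theorem EE_one : 7.38 ≤ EE 1 := by
  have h : EE 1 = Real.exp 1 ^ 2 := by
    unfold EE
    rw [← Real.exp_nat_mul]
    congr 1
    simp
  rw [h]
  have := Real.exp_one_gt_d9
  nlinarith

theorem EE_two : 14.35 ≤ EE 2 := by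
  have h : EE 2 ^ 3 = Real.exp 1 ^ 8 := by
    unfold EE
    rw [← Real.exp_nat_mul, ← Real.exp_nat_mul]
    congr 1
    simp [Finset.sum_range_succ]
    norm_num
  have h1 : (2.7182:ℝ) ^ 8 ≤ Real.exp 1 ^ 8 := by
    apply pow_le_pow_left₀ (by norm_num)
    have := Real.exp_one_gt_d9
    linarith
  have h2 : (14.35:ℝ) ^ 3 ≤ EE 2 ^ 3 := by
    rw [h]
    refine le_trans ?_ h1
    norm_num
  exact le_of_pow_le_pow_left₀ (by norm_num) (EE_pos 2).le h2

theorem EE_lower (n : ℕ) : 7 * ((n:ℝ) + 2) + 0.35 ≤ EE (n + 2) := by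
  induction n with
  | zero =>
    have := EE_two
    norm_num at this ⊢
    linarith
  | succ n ih =>
    rw [show n + 1 + 2 = (n + 2) + 1 by ring, EE_succ]
    set x : ℝ := 2 / (2 * ((n + 2 : ℕ) : ℝ) + 1) with hx
    have hn : (0:ℝ) ≤ n := Nat.cast_nonneg n
    have hden : (0:ℝ) < 2 * ((n + 2 : ℕ) : ℝ) + 1 := by positivity
    have hx0 : 0 < x := by positivity
    have hx1 : x ≤ 2 / 5 := by
      rw [hx, div_le_div_iff₀ hden (by norm_num)]
      push_cast
      linarith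
    have h1 : 1 + x + x ^ 2 / 2 + x ^ 3 / 6 ≤ Real.exp x := by
      have := Real.sum_le_exp_of_nonneg hx0.le 4
      simp [Finset.sum_range_succ, Nat.factorial] at this
      linarith
    have h2 : 7 * ((n:ℝ) + 2) = 7 / x - 7 / 2 := by
      rw [hx]
      push_cast
      field_simp
      ring
    have h3 : 0 < 7 * ((n:ℝ) + 2) + 0.35 := by positivity
    calc 7 * (((n + 1 : ℕ) : ℝ) + 2) + 0.35 = 7 * ((n:ℝ) + 2) + 0.35 + 7 := by push_cast; ring
      _ ≤ (7 * ((n:ℝ) + 2) + 0.35) * (1 + x + x ^ 2 / 2 + x ^ 3 / 6) := by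
          have e : (7 * ((n:ℝ) + 2) + 0.35) * (1 + x + x ^ 2 / 2 + x ^ 3 / 6)
              - (7 * ((n:ℝ) + 2) + 0.35 + 7)
              = x * (0.35 - 1.575 * x + 7 / 6 * x - 3.15 / 6 * x ^ 2) := by
            rw [h2]
            field_simp
            ring
          have h4 : 0 ≤ x * (0.35 - 1.575 * x + 7 / 6 * x - 3.15 / 6 * x ^ 2) := by
            apply mul_nonneg hx0.le
            nlinarith
          linarith
      _ ≤ EE (n + 2) * Real.exp x := by
          exact mul_le_mul ih h1 (by positivity) (EE_pos _).le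

theorem sqrt_pi_le : Real.sqrt Real.pi ≤ 1.7725 := by
  rw [Real.sqrt_le_left (by norm_num)]
  have := Real.pi_lt_d4
  norm_num at this ⊢
  linarith

theorem K_const (w y z : ℝ) (hy : 0 ≤ y) (hz : 0 ≤ z) (h1 : w / 2 ≤ y ^ 2)
    (h2 : 6.2832 * y ≤ z ^ 2) : Real.sqrt (2 * Real.pi * Real.sqrt (w / 2)) ≤ z := by
  rw [Real.sqrt_le_left hz]
  have h3 : Real.sqrt (w / 2) ≤ y := by rw [Real.sqrt_le_left hy]; exact h1
  have h4 := Real.pi_lt_d4
  have h5 := Real.sqrt_nonneg (w / 2)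
  calc 2 * Real.pi * Real.sqrt (w / 2) ≤ 6.2832 * y := by
        apply mul_le_mul _ h3 h5 (by norm_num)
        linarith
    _ ≤ z ^ 2 := h2

/-- the `L^∞` operator norm bound -/
theorem KK_norm_le {lam : ℝ} (hl : 1 ≤ lam) (N : ℕ) :
    IntegrableOn (KK lam N) (Ioi 0) ∧ 1 + ∫ t in Ioi (0:ℝ), |KK lam N t| ≤ EE N := by
  rcases N with _ | n
  · simp [KK, EE]
  obtain ⟨hi, h⟩ := L1_KK hl n
  refine ⟨hi, ?_⟩
  have hp := sqrt_pi_le
  rcases n with _ | n
  · have h1 := K_const (Wc 0) 0.25 1.2535 (by norm_num) (by norm_num)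
      (by unfold Wc; norm_num) (by norm_num)
    have h2 := EE_one
    simp only [if_true, mul_zero, Nat.cast_zero, zero_add] at h ⊢
    linarith
  rcases n with _ | n
  · have h1 := K_const (Wc 1) 0.3228 1.4245 (by norm_num) (by norm_num)
      (by unfold Wc; norm_num) (by norm_num)
    have h2 := EE_two
    simp only [zero_add, Nat.reduceAdd, Nat.cast_one, one_ne_zero, if_false] at h ⊢
    linarith
  · have h1 := K_const (Wc (n + 1 + 1)) 0.5363 1.836 (by norm_num) (by norm_num)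
      (by
        unfold Wc
        rw [if_neg (by omega), if_neg (by omega)]
        norm_num) (by norm_num)
    have h2 := EE_lower (n + 1)
    have hn : (0:ℝ) ≤ n := Nat.cast_nonneg n
    rw [if_neg (by omega)] at h
    push_cast at h h2 ⊢
    have h3 : 2 * (((n:ℝ) + 1 + 1 + 2) * Real.sqrt (2 * Real.pi * Real.sqrt (Wc (n + 1 + 1) / 2)))
        ≤ 2 * (((n:ℝ) + 1 + 1 + 2) * 1.836) := by gcongr
    have h4 : Real.sqrt Real.pi * ((n:ℝ) + 1 + 1 + 1) ≤ 1.7725 * ((n:ℝ) + 1 + 1 + 1) := by gcongr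
    rw [show n + 1 + 1 + 1 = n + 1 + 2 by ring] at *
    linarith

/-- the `L^1` operator norm bound -/
theorem KT_norm_le {lam : ℝ} (hl : 0 ≤ lam) (N : ℕ) :
    IntegrableOn (fun t => Real.exp (-2 * t) * KK lam N t) (Ioi 0) ∧
    1 + ∫ t in Ioi (0:ℝ), |Real.exp (-2 * t) * KK lam N t| ≤ EE N := by
  rcases N with _ | n
  · simp [KK, EE]
  obtain ⟨hi, h⟩ := L1_KT hl n
  refine ⟨hi, ?_⟩
  have hp := sqrt_pi_le
  rcases n with _ | n
  · have h2 := EE_one
    simp only [if_true, mul_zero, zero_add] at h ⊢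
    linarith
  · have h2 := EE_lower n
    have hn : (0:ℝ) ≤ n := Nat.cast_nonneg n
    rw [if_neg (by omega)] at h
    push_cast at h
    have h4 : Real.sqrt Real.pi * ((n:ℝ) + 1 + 1) ≤ 1.7725 * ((n:ℝ) + 1 + 1) := by gcongr
    rw [show n + 1 + 1 = n + 2 by ring] at *
    linarith

end Pool.Agent.Lib.MP_dd244f_an.OtherModes
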