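import Pool.Agent.Lib.MP_dd244f_an.OtherModes.Chain

set_option autoImplicit false

namespace Pool.Agent.Lib.MP_dd244f_an.OtherModes
open MeasureTheory Set Filter Topology

theorem int_pow_exp (i : ℕ) {b : ℝ} (hb : 0 < b) :
    ∫ t in Ioi (0:ℝ), t ^ i * Real.exp (-b * t) = i.factorial / b ^ (i + 1) := by
  have h := Real.integral_rpow_mul_exp_neg_mul_Ioi (a := i + 1) (r := b) (by positivity) hb
  rw [Real.Gamma_nat_eq_factorial] at h
  have e : ∫ t in Ioi (0:ℝ), t ^ i * Real.exp (-b * t)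
      = ∫ t in Ioi (0:ℝ), t ^ (((i:ℝ) + 1) - 1) * Real.exp (-(b * t)) := by
    apply setIntegral_congr_fun measurableSet_Ioi
    intro t _
    simp only [add_sub_cancel_right, Real.rpow_natCast, neg_mul]
  rw [e, h]
  have e2 : ((i:ℝ) + 1) = ((i + 1 : ℕ) : ℝ) := by push_cast; ring
  rw [e2, Real.rpow_natCast, one_div, inv_pow]
  field_simp

theorem integrable_pow_exp' (i : ℕ) {b : ℝ} (hb : 0 < b) :
    IntegrableOn (fun t : ℝ => t ^ i * Real.exp (-b * t)) (Ioi 0) := by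
  have h := integrableOn_rpow_mul_exp_neg_mul_rpow (s := i) (p := 1) (b := b)
    (by have : (0:ℝ) ≤ i := Nat.cast_nonneg i
        linarith) one_pos hb
  refine h.congr_fun ?_ measurableSet_Ioi
  intro t _
  simp only [Real.rpow_natCast, Real.rpow_one]

theorem integral_add6 {μ : Measure ℝ} {f1 f2 f3 f4 f5 f6 : ℝ → ℝ} (h1 : Integrable f1 μ)
    (h2 : Integrable f2 μ) (h3 : Integrable f3 μ) (h4 : Integrable f4 μ) (h5 : Integrable f5 μ)
    (h6 : Integrable f6 μ) :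
    ∫ t, (f1 t + f2 t + f3 t + f4 t + f5 t + f6 t) ∂μ =
      ∫ t, f1 t ∂μ + ∫ t, f2 t ∂μ + ∫ t, f3 t ∂μ + ∫ t, f4 t ∂μ + ∫ t, f5 t ∂μ + ∫ t, f6 t ∂μ := by
  have k2 : Integrable (fun t => f1 t + f2 t) μ := h1.add h2
  have k3 : Integrable (fun t => f1 t + f2 t + f3 t) μ := k2.add h3
  have k4 : Integrable (fun t => f1 t + f2 t + f3 t + f4 t) μ := k3.add h4
  have k5 : Integrable (fun t => f1 t + f2 t + f3 t + f4 t + f5 t) μ := k4.add h5
  rw [integral_add k5 h6, integral_add k4 h5, integral_add k3 h4, integral_add k2 h3,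
    integral_add h1 h2]

theorem Q_three (i : ℕ) {a b c : ℝ} (ha : 0 < a) (hb : 0 < b) (hc : 0 < c) (x y z : ℝ) :
    Q i (fun t => x * ek a t + y * ek b t + z * ek c t) = i.factorial *
      (x ^ 2 / (2 * a) ^ (i + 1) + y ^ 2 / (2 * b) ^ (i + 1) + z ^ 2 / (2 * c) ^ (i + 1)
      + 2 * x * y / (a + b) ^ (i + 1) + 2 * x * z / (a + c) ^ (i + 1)
      + 2 * y * z / (b + c) ^ (i + 1)) := by
  have P : ∀ {s : ℝ}, 0 < s → ∀ w : ℝ,
      IntegrableOn (fun t : ℝ => w * (t ^ i * Real.exp (-s * t))) (Ioi 0) :=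
    fun hs w => (integrable_pow_exp' i hs).const_mul w
  have J : ∀ {s : ℝ}, 0 < s → ∀ w : ℝ,
      ∫ t in Ioi (0:ℝ), w * (t ^ i * Real.exp (-s * t)) = w * (i.factorial / s ^ (i + 1)) := by
    intro s hs w
    rw [integral_const_mul, int_pow_exp i hs]
  have e : Q i (fun t => x * ek a t + y * ek b t + z * ek c t) = ∫ t in Ioi (0:ℝ),
      (x ^ 2 * (t ^ i * Real.exp (-(2 * a) * t)) + y ^ 2 * (t ^ i * Real.exp (-(2 * b) * t))
      + z ^ 2 * (t ^ i * Real.exp (-(2 * c) * t)) + 2 * x * y * (t ^ i * Real.exp (-(a + b) * t))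
      + 2 * x * z * (t ^ i * Real.exp (-(a + c) * t))
      + 2 * y * z * (t ^ i * Real.exp (-(b + c) * t))) := by
    unfold Q
    congr 1
    ext t
    unfold ek
    have e1 : Real.exp (-(2 * a) * t) = Real.exp (-a * t) * Real.exp (-a * t) := by
      rw [← Real.exp_add]; ring_nf
    have e2 : Real.exp (-(2 * b) * t) = Real.exp (-b * t) * Real.exp (-b * t) := by
      rw [← Real.exp_add]; ring_nf
    have e3 : Real.exp (-(2 * c) * t) = Real.exp (-c * t) * Real.exp (-c * t) := by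
      rw [← Real.exp_add]; ring_nf
    have e4 : Real.exp (-(a + b) * t) = Real.exp (-a * t) * Real.exp (-b * t) := by
      rw [← Real.exp_add]; ring_nf
    have e5 : Real.exp (-(a + c) * t) = Real.exp (-a * t) * Real.exp (-c * t) := by
      rw [← Real.exp_add]; ring_nf
    have e6 : Real.exp (-(b + c) * t) = Real.exp (-b * t) * Real.exp (-c * t) := by
      rw [← Real.exp_add]; ring_nf
    rw [e1, e2, e3, e4, e5, e6]
    ring
  have h2a : 0 < 2 * a := by linarith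
  have h2b : 0 < 2 * b := by linarith
  have h2c : 0 < 2 * c := by linarith
  have hab : 0 < a + b := by linarith
  have hac : 0 < a + c := by linarith
  have hbc : 0 < b + c := by linarith
  have i1 := P h2a (x ^ 2)
  have i2 := P h2b (y ^ 2)
  have i3 := P h2c (z ^ 2)
  have i4 := P hab (2 * x * y)
  have i5 := P hac (2 * x * z)
  have i6 := P hbc (2 * y * z)
  rw [e, integral_add6 i1 i2 i3 i4 i5 i6, J h2a, J h2b, J h2c, J hab, J hac, J hbc]
  ring

theorem Q_ek (i : ℕ) {a : ℝ} (ha : 0 < a) : Q i (ek a) = i.factorial / (2 * a) ^ (i + 1) := by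
  have h := Q_three i ha ha ha 1 0 0
  have e : (fun t => 1 * ek a t + 0 * ek a t + 0 * ek a t) = ek a := by ext t; ring
  rw [e] at h
  rw [h]; ring

theorem Q0_ek {a : ℝ} (ha : 0 < a) : Q 0 (ek a) = 1 / (2 * a) := by
  rw [Q_ek 0 ha]; simp

theorem Q1_ek {a : ℝ} (ha : 0 < a) : Q 1 (ek a) = 1 / (4 * a ^ 2) := by
  rw [Q_ek 1 ha]
  norm_num
  ring

theorem Q2_ek {a : ℝ} (ha : 0 < a) : Q 2 (ek a) = 1 / (4 * a ^ 3) := by
  rw [Q_ek 2 ha]
  norm_num [Nat.factorial]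
  field_simp
  norm_num

theorem Lop_ek_form {a c : ℝ} (hac : c ≠ a) :
    Lop c (ek a) = fun t => (1 / (c - a)) * ek a t + (-1 / (c - a)) * ek c t + 0 * ek a t := by
  ext t
  rw [Lop_ek hac]
  ring

theorem Q0_Lop_ek {a c : ℝ} (ha : 0 < a) (hc : 0 < c) (hac : c ≠ a) :
    Q 0 (Lop c (ek a)) = 1 / (2 * a * c * (a + c)) := by
  rw [Lop_ek_form hac, Q_three 0 ha hc ha]
  have h1 : c - a ≠ 0 := sub_ne_zero.2 hac
  have h2 : a + c ≠ 0 := by positivity
  simp only [Nat.factorial, Nat.cast_one, zero_add, pow_one]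
  field_simp
  ring

theorem Q1_Lop_ek {a c : ℝ} (ha : 0 < a) (hc : 0 < c) (hac : c ≠ a) :
    Q 1 (Lop c (ek a)) = ((a + c) ^ 2 + 2 * a * c) / (4 * a ^ 2 * c ^ 2 * (a + c) ^ 2) := by
  rw [Lop_ek_form hac, Q_three 1 ha hc ha]
  have h1 : c - a ≠ 0 := sub_ne_zero.2 hac
  have h2 : a + c ≠ 0 := by positivity
  simp only [Nat.factorial, Nat.cast_one, Nat.mul_one, Nat.reduceAdd]
  field_simp
  ring

theorem Q0_Lop_Lop_ek {a b c : ℝ} (ha : 0 < a) (hb : 0 < b) (hc : 0 < c) (hac : c ≠ a)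
    (hba : b ≠ a) (hbc : b ≠ c) :
    Q 0 (Lop b (Lop c (ek a)))
      = (a + b + c) / (2 * a * b * c * (a + b) * (b + c) * (c + a)) := by
  have h1 : c - a ≠ 0 := sub_ne_zero.2 hac
  have h3 : b - a ≠ 0 := sub_ne_zero.2 hba
  have h4 : b - c ≠ 0 := sub_ne_zero.2 hbc
  have e : Lop b (Lop c (ek a)) = fun t => ((1 / (c - a) - 1 / (b - a)) / (b - c)) * ek a t
      + (1 / ((b - a) * (b - c))) * ek b t + (-1 / ((c - a) * (b - c))) * ek c t := by
    ext t
    rw [Lop_Lop hbc (ek_continuous a), Lop_ek hac, Lop_ek hba]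
    field_simp
    ring
  rw [e, Q_three 0 ha hb hc]
  have h2 : a + c ≠ 0 := by positivity
  have h5 : a + b ≠ 0 := by positivity
  have h6 : b + c ≠ 0 := by positivity
  have h7 : c + a ≠ 0 := by positivity
  simp only [Nat.factorial, Nat.cast_one, zero_add, pow_one]
  field_simp
  ring

end Pool.Agent.Lib.MP_dd244f_an.OtherModes
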