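import Pool.Agent.Lib.MP_dd244f_an.OtherModes.Bounds

set_option autoImplicit false

namespace Pool.Agent.Lib.MP_dd244f_an.OtherModes
open MeasureTheory Set Filter Topology

theorem sum_shift_le {φ : ℕ → ℝ} (hφ : ∀ i, 0 ≤ φ i) (J n : ℕ) :
    ∑ i ∈ Finset.range n, (φ i - φ (J + i)) ≤ ∑ l ∈ Finset.range J, φ l := by
  rw [Finset.sum_sub_distrib]
  have h1 := Finset.sum_range_add φ J n
  have h2 : ∑ i ∈ Finset.range n, φ i ≤ ∑ i ∈ Finset.range (J + n), φ i :=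
    Finset.sum_le_sum_of_subset_of_nonneg (Finset.range_subset_range.2 (by omega))
      fun i _ _ => hφ i
  linarith

theorem inner_sum_le {J : ℕ} (hJ : 1 ≤ J) (n : ℕ) :
    ∑ i ∈ Finset.range n, 1 / (((J:ℝ) + 2 + i) * (2 * J + 2 + i)) ≤ 1 / (J + 2) := by
  have hJ0 : (0:ℝ) < J := by exact_mod_cast hJ
  have h1 := sum_shift_le (φ := fun i : ℕ => 1 / ((J:ℝ) + 2 + i)) (fun i => by positivity) J n
  have h2 : ∑ l ∈ Finset.range J, 1 / ((J:ℝ) + 2 + l) ≤ J * (1 / ((J:ℝ) + 2)) := by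
    calc ∑ l ∈ Finset.range J, 1 / ((J:ℝ) + 2 + l) ≤ ∑ _l ∈ Finset.range J, 1 / ((J:ℝ) + 2) := by
          apply Finset.sum_le_sum
          intro l _
          apply one_div_le_one_div_of_le (by positivity)
          have : (0:ℝ) ≤ l := Nat.cast_nonneg l
          linarith
      _ = _ := by rw [Finset.sum_const, Finset.card_range, nsmul_eq_mul]
  have h3 : ∑ i ∈ Finset.range n, 1 / (((J:ℝ) + 2 + i) * (2 * J + 2 + i))
      = (1 / J) * ∑ i ∈ Finset.range n, (1 / ((J:ℝ) + 2 + i) - 1 / ((J:ℝ) + 2 + ((J + i : ℕ) : ℝ))) := by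
    rw [Finset.mul_sum]
    apply Finset.sum_congr rfl
    intro i _
    push_cast
    field_simp
    ring
  rw [h3]
  calc (1 / (J:ℝ)) * ∑ i ∈ Finset.range n, (1 / ((J:ℝ) + 2 + i) - 1 / ((J:ℝ) + 2 + ((J + i : ℕ) : ℝ)))
      ≤ (1 / (J:ℝ)) * (J * (1 / ((J:ℝ) + 2))) := by
        gcongr
        exact h1.trans h2
    _ = 1 / (J + 2) := by field_simp

theorem R1 {lam N j : ℝ} (hl : 1 ≤ lam) (hj : 0 ≤ j) (hjN : j ≤ N) :
    (lam + N) / (lam + j) ≤ (N + 1) / (1 + j) := by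
  rw [div_le_div_iff₀ (by linarith) (by linarith)]
  nlinarith [mul_nonneg (by linarith : (0:ℝ) ≤ lam - 1) (by linarith : 0 ≤ N - j)]

theorem R2 {lam N s : ℝ} (hl : 1 ≤ lam) (_hN : 0 ≤ N) (hs : 0 ≤ s) (hsN : s ≤ 2 * N) :
    (lam + N) ^ 2 / (lam * (lam + s)) ≤ (N + 1) ^ 2 / (1 + s) := by
  have hl0 : 0 < lam := by linarith
  rw [div_le_div_iff₀ (by positivity) (by linarith)]
  have e : (N + 1) ^ 2 * (lam * (lam + s)) - (lam + N) ^ 2 * (1 + s)
      = (lam - 1) * (lam * ((1 + N) ^ 2 - (1 + s)) + N ^ 2 * (1 + s)) := by ring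
  have h1 : 0 ≤ (1 + N) ^ 2 - (1 + s) := by nlinarith [sq_nonneg N]
  have h2 : 0 ≤ (lam - 1) * (lam * ((1 + N) ^ 2 - (1 + s)) + N ^ 2 * (1 + s)) := by
    apply mul_nonneg (by linarith)
    positivity
  linarith

theorem term1 {lam N J : ℝ} (hl : 1 ≤ lam) (hJ : 0 ≤ J) (hJN : J ≤ N) :
    (lam + N) ^ 4 / lam * (1 / (lam * (lam + 2 * J) * (lam + (lam + 2 * J))))
      ≤ (N + 1) ^ 4 * (1 / (2 * (1 + 2 * J) * (1 + J))) := by
  have hl0 : 0 < lam := by linarith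
  have hN : 0 ≤ N := by linarith
  have h1 := R1 (j := 0) hl le_rfl hN
  have h2 := R1 hl hJ hJN
  have h3 := R2 (s := 2 * J) hl hN (by linarith) (by linarith)
  calc (lam + N) ^ 4 / lam * (1 / (lam * (lam + 2 * J) * (lam + (lam + 2 * J))))
      = (1 / 2) * ((lam + N) / (lam + 0)) * ((lam + N) / (lam + J)) *
        ((lam + N) ^ 2 / (lam * (lam + 2 * J))) := by
        field_simp
        ring
    _ ≤ (1 / 2) * ((N + 1) / (1 + 0)) * ((N + 1) / (1 + J)) * ((N + 1) ^ 2 / (1 + 2 * J)) := by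
        gcongr
    _ = _ := by field_simp; ring

theorem term2 {lam N J i : ℝ} (hl : 1 ≤ lam) (hJ : 0 ≤ J) (hi : 0 ≤ i) (hiN : J + 1 + i ≤ N) :
    (lam + N) ^ 4 / lam * (4 * (1 / ((lam + (lam + 2 * J)) * (lam + (lam + 2 * J + 2 + 2 * i)) *
        ((lam + 2 * J) + (lam + 2 * J + 2 + 2 * i)))))
      ≤ (N + 1) ^ 4 * (1 / 2 * (1 / (1 + J)) * (1 / ((J + 2 + i) * (2 * J + 2 + i)))) := by
  have hl0 : 0 < lam := by linarith
  have hN : 0 ≤ N := by linarith
  have h1 := R1 (j := J) (N := N) hl hJ (by linarith)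
  have h2 := R1 (j := J + 1 + i) hl (by linarith) hiN
  have h3 := R2 (s := 2 * J + 1 + i) hl hN (by linarith) (by linarith)
  calc (lam + N) ^ 4 / lam * (4 * (1 / ((lam + (lam + 2 * J)) * (lam + (lam + 2 * J + 2 + 2 * i)) *
        ((lam + 2 * J) + (lam + 2 * J + 2 + 2 * i)))))
      = (1 / 2) * ((lam + N) / (lam + J)) * ((lam + N) / (lam + (J + 1 + i))) *
        ((lam + N) ^ 2 / (lam * (lam + (2 * J + 1 + i)))) := by
        field_simp
        ring
    _ ≤ (1 / 2) * ((N + 1) / (1 + J)) * ((N + 1) / (1 + (J + 1 + i))) *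
        ((N + 1) ^ 2 / (1 + (2 * J + 1 + i))) := by
        gcongr
    _ = _ := by
        have e1 : 1 + (J + 1 + i) = J + 2 + i := by ring
        have e2 : 1 + (2 * J + 1 + i) = 2 * J + 2 + i := by ring
        rw [e1, e2]
        field_simp

theorem VV_tail {lam : ℝ} (hl : 1 ≤ lam) {N : ℝ} (n : ℕ) : ∀ {J : ℕ}, 1 ≤ J → (J:ℝ) + n ≤ N →
    (lam + N) ^ 4 / lam * (VV lam (lam + 2 * J) n - 1 / (8 * lam ^ 3)) ≤
      (N + 1) ^ 4 * (1 / 4 * (1 / (J + 1 / 4)) + 1 / 2 * (1 / (J + 1))) := by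
  have hl0 : 0 < lam := by linarith
  induction n with
  | zero =>
    intro J hJ hJN
    rw [VV_zero hl]
    have : (0:ℝ) < J := by exact_mod_cast hJ
    simp only [CharP.cast_eq_zero, add_zero] at hJN
    have hN : 0 < N + 1 := by linarith
    rw [sub_self, mul_zero]
    positivity
  | succ n ih =>
    intro J hJ hJN
    push_cast at hJN
    have hJ0 : (0:ℝ) < J := by exact_mod_cast hJ
    have hn0 : (0:ℝ) ≤ n := Nat.cast_nonneg n
    have hN : 0 < N + 1 := by linarith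
    rw [VV_succ hl n (by linarith : lam < lam + 2 * (J:ℝ))]
    have h1 := ih (J := J + 1) (by omega) (by push_cast; linarith)
    have e1 : lam + 2 * ((J + 1 : ℕ) : ℝ) = lam + 2 * J + 2 := by push_cast; ring
    rw [e1] at h1
    push_cast at h1
    have h2 := term1 (N := N) hl hJ0.le (by linarith)
    have h3 : (lam + N) ^ 4 / lam * (4 * ∑ i ∈ Finset.range n, 1 / ((lam + (lam + 2 * (J:ℝ))) *
        (lam + (lam + 2 * J + 2 + 2 * i)) * ((lam + 2 * J) + (lam + 2 * J + 2 + 2 * i))))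
        ≤ (N + 1) ^ 4 * (1 / 2 * (1 / (1 + (J:ℝ))) * (1 / (J + 2))) := by
      rw [Finset.mul_sum, Finset.mul_sum]
      calc _ ≤ ∑ i ∈ Finset.range n, (N + 1) ^ 4 * (1 / 2 * (1 / (1 + (J:ℝ))) *
            (1 / (((J:ℝ) + 2 + i) * (2 * J + 2 + i)))) := by
            apply Finset.sum_le_sum
            intro i hi
            have hi' : (i:ℝ) + 1 ≤ n := by exact_mod_cast Finset.mem_range.1 hi
            exact term2 hl hJ0.le (Nat.cast_nonneg i) (by linarith)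
        _ = (N + 1) ^ 4 * (1 / 2 * (1 / (1 + (J:ℝ))) *
            ∑ i ∈ Finset.range n, (1 / (((J:ℝ) + 2 + i) * (2 * J + 2 + i)))) := by
            rw [Finset.mul_sum, Finset.mul_sum]
        _ ≤ _ := by
            gcongr
            exact inner_sum_le hJ n
    have h4 : 1 / (2 * (1 + 2 * (J:ℝ)) * (1 + J)) ≤
        1 / 4 * (1 / (J + 1 / 4)) - 1 / 4 * (1 / (J + 1 + 1 / 4)) := by
      have : 1 / 4 * (1 / ((J:ℝ) + 1 / 4)) - 1 / 4 * (1 / (J + 1 + 1 / 4))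
          = 1 / (4 * ((J + 1 / 4) * (J + 1 + 1 / 4))) := by
        field_simp
        ring
      rw [this]
      apply one_div_le_one_div_of_le (by positivity)
      nlinarith
    have h5 : 1 / 2 * (1 / (1 + (J:ℝ))) * (1 / (J + 2)) =
        1 / 2 * (1 / (J + 1)) - 1 / 2 * (1 / (J + 1 + 1)) := by
      field_simp
      ring
    rw [h5] at h3
    have h6 : (N + 1) ^ 4 * (1 / (2 * (1 + 2 * (J:ℝ)) * (1 + J))) ≤ (N + 1) ^ 4 *
        (1 / 4 * (1 / (J + 1 / 4)) - 1 / 4 * (1 / (J + 1 + 1 / 4))) := by gcongr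
    nlinarith

/-- the constant in the variance bound -/
noncomputable def Wc (n : ℕ) : ℝ := if n = 0 then 1 / 8 else if n = 1 then 5 / 24 else 23 / 40

theorem VV_bound {lam : ℝ} (hl : 1 ≤ lam) (n : ℕ) :
    (lam + (n + 1)) ^ 4 / lam * VV lam (lam + 2) n ≤ ((n:ℝ) + 2) ^ 4 * Wc n := by
  have hl0 : 0 < lam := by linarith
  have hn0 : (0:ℝ) ≤ n := Nat.cast_nonneg n
  have h8 : (lam + (n + 1)) ^ 4 / lam * (1 / (8 * lam ^ 3)) ≤ ((n:ℝ) + 2) ^ 4 * (1 / 8) := by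
    have h1 := R1 (j := 0) (N := (n:ℝ) + 1) hl le_rfl (by linarith)
    have h2 : (lam + ((n:ℝ) + 1)) / (lam + 0) ≤ (n:ℝ) + 2 := by
      refine h1.trans (le_of_eq ?_); field_simp; ring
    calc (lam + ((n:ℝ) + 1)) ^ 4 / lam * (1 / (8 * lam ^ 3))
        = ((lam + ((n:ℝ) + 1)) / (lam + 0)) ^ 4 * (1 / 8) := by field_simp; ring
      _ ≤ _ := by gcongr
  unfold Wc
  rcases Nat.eq_zero_or_pos n with rfl | hn
  · rw [VV_zero hl]
    simpa using h8
  rcases eq_or_ne n 1 with rfl | hn1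
  · have h1 := VV_succ hl 0 (by linarith : lam < lam + 2)
    rw [VV_zero hl] at h1
    have h2 := term1 (N := 2) (J := 1) hl (by norm_num) (by norm_num)
    simp only [Nat.one_ne_zero, if_false, if_true, Nat.cast_one] at *
    rw [show (0 + 1 : ℕ) = 1 from rfl] at h1
    rw [h1]
    simp only [Finset.range_zero, Finset.sum_empty, mul_zero, add_zero]
    norm_num at h2 h8 ⊢
    have e : lam * (lam + 2) * (lam + (lam + 2)) ≠ 0 := by positivity
    nlinarith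
  · rw [if_neg hn.ne', if_neg hn1]
    have h1 := VV_tail (N := (n:ℝ) + 1) hl n (J := 1) le_rfl (by push_cast; linarith)
    norm_num at h1
    rw [mul_sub] at h1
    norm_num at h8 ⊢
    have e : (n:ℝ) + 1 + 1 = n + 2 := by ring
    rw [e] at h1
    nlinarith

end Pool.Agent.Lib.MP_dd244f_an.OtherModes
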